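import Pool.Agent.Helper49.ZB.Newton

/-!
# Log-concavity of the top coefficients of a real polynomial with bounded roots
-/

set_option autoImplicit false

namespace Pool.Agent.Helper49.EV

open Polynomial Pool.Agent.Helper49.ZB

/-- the coefficients of a real polynomial and the power sums of its roots, any bound -/
theorem newton_seq_gen (g : ℕ) (e : ℕ → ℝ) (he0 : e 0 = 1) (hg : ∀ k, g < k → e k = 0) (ρ : ℝ)
    (hroots : ∀ t : ℂ, (∑ k ∈ Finset.range (g + 1), (e k : ℂ) * t ^ (g - k)) = 0 → ‖t‖ ≤ ρ) :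
    ∃ p : ℕ → ℝ, (∀ m, |p (m + 1)| ≤ g * ρ ^ (m + 1)) ∧
      ∀ k : ℕ, ((k : ℝ) + 1) * e (k + 1) =
        ∑ i ∈ Finset.range (k + 1), (-1) ^ i * p (i + 1) * e (k - i) := by
  classical
  set P : ℂ[X] := ∑ k ∈ Finset.range (g + 1), C (e k : ℂ) * X ^ (g - k) with hP
  have hcoeff : ∀ j, j ≤ g → P.coeff j = (e (g - j) : ℂ) := by
    intro j hj
    rw [hP, Polynomial.finsetSum_coeff, Finset.sum_eq_single (g - j)]
    · rw [Polynomial.coeff_C_mul_X_pow, if_pos (by omega)]
    · intro b hb hne
      rw [Finset.mem_range] at hb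
      rw [Polynomial.coeff_C_mul_X_pow, if_neg (by omega)]
    · intro h
      exact absurd (Finset.mem_range.2 (by omega)) h
  have hle : P.natDegree ≤ g := by
    rw [hP]
    refine Polynomial.natDegree_sum_le_of_forall_le _ _ fun k hk => ?_
    exact (Polynomial.natDegree_C_mul_X_pow_le _ _).trans (Nat.sub_le _ _)
  have hlead : P.coeff g = 1 := by
    rw [hcoeff g le_rfl, Nat.sub_self, he0]
    simp
  have hdeg : P.natDegree = g := by
    refine le_antisymm hle (Polynomial.le_natDegree_of_ne_zero ?_)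
    rw [hlead]
    exact one_ne_zero
  have hmonic : P.leadingCoeff = 1 := by
    rw [Polynomial.leadingCoeff, hdeg, hlead]
  have hP0 : P ≠ 0 := by
    intro h
    rw [h, Polynomial.coeff_zero] at hlead
    exact zero_ne_one hlead
  have hcard : Multiset.card P.roots = P.natDegree :=
    IsAlgClosed.card_roots_eq_natDegree
  have hes : ∀ k, (e k : ℂ) = (-1) ^ k * P.roots.esymm k := by
    intro k
    rcases Nat.lt_or_ge g k with h | h
    · rw [hg k h]
      have : P.roots.esymm k = 0 := by
        unfold Multiset.esymm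
        rw [Multiset.powersetCard_eq_empty k (by rw [hcard, hdeg]; exact h)]
        simp
      rw [this]
      simp
    · have h1 := Polynomial.coeff_eq_esymm_roots_of_card hcard
        (show g - k ≤ P.natDegree by rw [hdeg]; omega)
      rw [hcoeff (g - k) (by omega), hmonic, hdeg, show g - (g - k) = k by omega, one_mul] at h1
      exact h1
  refine ⟨fun m => ((P.roots.map fun t => (-t) ^ m).sum).re, ?_, ?_⟩
  · intro m
    have h1 : ∀ s : Multiset ℂ, (∀ t ∈ s, ‖t‖ ≤ ρ) →
        ‖(s.map fun t => (-t) ^ (m + 1)).sum‖ ≤ Multiset.card s * ρ ^ (m + 1) := by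
      intro s
      induction s using Multiset.induction_on with
      | empty => simp
      | cons a s ih =>
        intro h
        rw [Multiset.map_cons, Multiset.sum_cons, Multiset.card_cons]
        have h2 := ih fun t ht => h t (Multiset.mem_cons_of_mem ht)
        have h3 : ‖(-a) ^ (m + 1)‖ ≤ ρ ^ (m + 1) := by
          rw [norm_pow, norm_neg]
          exact pow_le_pow_left₀ (norm_nonneg _) (h a (Multiset.mem_cons_self _ _)) _
        refine (norm_add_le _ _).trans ?_
        push_cast
        linarith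
    have h2 := h1 P.roots (by
      intro t ht
      apply hroots
      have h3 := (Polynomial.mem_roots hP0).1 ht
      rw [Polynomial.IsRoot, hP, Polynomial.eval_finsetSum] at h3
      simpa using h3)
    rw [hcard, hdeg] at h2
    exact (Complex.abs_re_le_norm _).trans h2
  · intro k
    have h1 := newton_multiset P.roots k
    have h2 : ((k : ℂ) + 1) * (e (k + 1) : ℂ) = ∑ i ∈ Finset.range (k + 1),
        (-1) ^ i * (P.roots.map fun t => (-t) ^ (i + 1)).sum * (e (k - i) : ℂ) := by
      rw [hes (k + 1)]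
      calc ((k : ℂ) + 1) * ((-1) ^ (k + 1) * P.roots.esymm (k + 1))
          = (-1) ^ (k + 1) * (((k : ℂ) + 1) * P.roots.esymm (k + 1)) := by ring
        _ = _ := by
          rw [h1, Finset.mul_sum]
          refine Finset.sum_congr rfl fun i hi => ?_
          rw [Finset.mem_range] at hi
          rw [hes (k - i)]
          have h3 : (P.roots.map fun t => (-t) ^ (i + 1)).sum =
              (-1) ^ (i + 1) * (P.roots.map fun t => t ^ (i + 1)).sum := by
            rw [← Multiset.sum_map_mul_left]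
            congr 1
            refine Multiset.map_congr rfl fun t _ => ?_
            rw [neg_pow]
          rw [h3]
          obtain ⟨j, rfl⟩ : ∃ j, k = i + j := ⟨k - i, by omega⟩
          rw [show i + j - i = j by omega]
          have h4 : ((-1 : ℂ) ^ i) * (-1) ^ i = 1 := by
            rw [← mul_pow]
            simp
          calc (-1 : ℂ) ^ (i + j + 1) * ((-1) ^ i * (P.roots.map fun t => t ^ (i + 1)).sum *
                P.roots.esymm j) = ((-1 : ℂ) ^ i * (-1) ^ i) * ((-1) ^ (j + 1) *
                (P.roots.map fun t => t ^ (i + 1)).sum * P.roots.esymm j) := by ring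
            _ = ((-1 : ℂ) ^ i * (-1) ^ i) * ((-1) * (P.roots.map fun t => t ^ (i + 1)).sum *
                ((-1) ^ j * P.roots.esymm j)) := by ring
            _ = (-1) ^ i * ((-1) ^ (i + 1) * (P.roots.map fun t => t ^ (i + 1)).sum) *
                ((-1) ^ j * P.roots.esymm j) := by ring
    have h5 := congrArg Complex.re h2
    rw [Complex.re_sum] at h5
    have h6 : (((k : ℂ) + 1) * (e (k + 1) : ℂ)).re = ((k : ℝ) + 1) * e (k + 1) := by
      have : ((k : ℂ) + 1) * (e (k + 1) : ℂ) = (((k : ℝ) + 1) * e (k + 1) : ℝ) := by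
        push_cast
        ring
      rw [this, Complex.ofReal_re]
    rw [h6] at h5
    rw [h5]
    refine Finset.sum_congr rfl fun i _ => ?_
    have h7 : ((-1 : ℂ) ^ i) = (((-1 : ℝ) ^ i : ℝ) : ℂ) := by
      push_cast
      rfl
    rw [h7, Complex.re_mul_ofReal, Complex.re_ofReal_mul]

theorem geo_le1 {x : ℝ} (h0 : 0 ≤ x) (h1 : x ≤ 1 / 2) (n : ℕ) :
    ∑ i ∈ Finset.range n, ((i : ℝ) + 1) * x ^ i ≤ 4 := by
  have h2 : (0 : ℝ) ≤ 1 - x := by linarith
  have h3 : 1 / (1 - x) ^ 2 ≤ 4 := by
    rw [div_le_iff₀ (by nlinarith)]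
    nlinarith
  cases n with
  | zero => simp
  | succ n =>
    rw [Finset.sum_range_succ']
    have h4 := geo_le h0 (by linarith) n
    have h5 : ∑ i ∈ Finset.range n, (((i + 1 : ℕ) : ℝ) + 1) * x ^ (i + 1) =
        ∑ i ∈ Finset.range n, ((i : ℝ) + 2) * x ^ (i + 1) := by
      refine Finset.sum_congr rfl fun i _ => ?_
      push_cast
      ring
    rw [h5]
    simp only [Nat.cast_zero, zero_add, pow_zero, mul_one]
    linarith

theorem geo_le0 {x : ℝ} (h0 : 0 ≤ x) (h1 : x ≤ 1 / 2) (n : ℕ) :
    ∑ i ∈ Finset.range n, x ^ i ≤ 2 := by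
  have h2 : ∀ n : ℕ, ∑ i ∈ Finset.range n, x ^ i ≤ 2 - 2 * x ^ n := by
    intro n
    induction n with
    | zero => simp
    | succ n ih =>
      rw [Finset.sum_range_succ, pow_succ]
      have : 0 ≤ x ^ n := by positivity
      nlinarith
  have := h2 n
  have h3 : 0 ≤ x ^ n := by positivity
  linarith

/-- the increments of the quotients of consecutive coefficients -/
theorem incr_gen {e p : ℕ → ℝ} {g lam ρ c κ : ℝ} (he0 : e 0 = 1) (he1 : e 1 = lam) (hg : 0 < g)
    (hc : 0 < c) (hρ : 0 < ρ) (hlam : c * g ≤ lam) (hκ0 : 0 < κ) (hκ1 : 16 * ρ ^ 2 * κ ≤ c)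
    (hκ2 : 2 * ρ * κ ≤ 1) (hp : ∀ m, |p (m + 1)| ≤ g * ρ ^ (m + 1))
    (hN : ∀ k : ℕ, ((k : ℝ) + 1) * e (k + 1) =
      ∑ i ∈ Finset.range (k + 1), (-1) ^ i * p (i + 1) * e (k - i)) :
    ∀ j : ℕ, 2 * (j : ℝ) ≤ κ * lam → (∀ s ≤ j + 1, 0 < e s) ∧
      ∀ s ≤ j, 0 ≤ yq e (s + 1) - yq e s ∧ yq e (s + 1) - yq e s ≤ 2 / lam := by
  have lam0 : 0 < lam := lt_of_lt_of_le (by positivity) hlam
  have p1 : p 1 = lam := by
    have := hN 0
    simp only [Nat.cast_zero, zero_add, one_mul, Finset.range_one, Finset.sum_singleton, pow_zero,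
      Nat.sub_zero, he0, mul_one] at this
    rw [← this, he1]
  intro j
  induction j with
  | zero =>
    intro _
    refine ⟨?_, ?_⟩
    · intro s hs
      rcases Nat.eq_zero_or_pos s with rfl | h
      · rw [he0]; exact one_pos
      · obtain rfl : s = 1 := by omega
        rw [he1]; exact lam0
    · intro s hs
      obtain rfl : s = 0 := by omega
      change 0 ≤ e 0 / e 1 - 0 ∧ e 0 / e 1 - 0 ≤ 2 / lam
      rw [he0, he1, sub_zero]
      exact ⟨by positivity, div_le_div_of_nonneg_right (by norm_num) lam0.le⟩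
  | succ j ih =>
    intro hj
    push_cast at hj
    obtain ⟨ep, IH⟩ := ih (by linarith)
    -- the quotients
    have ydiff : ∀ n a, a + n ≤ j + 1 → 0 ≤ yq e (a + n) - yq e a ∧
        yq e (a + n) - yq e a ≤ n * (2 / lam) := by
      intro n
      induction n with
      | zero =>
        intro a _
        simp
      | succ n ihn =>
        intro a ha
        obtain ⟨h1, h2⟩ := ihn a (by omega)
        obtain ⟨h3, h4⟩ := IH (a + n) (by omega)
        rw [show a + (n + 1) = a + n + 1 by ring]
        push_cast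
        exact ⟨by linarith, by linarith⟩
    have ysm : ∀ a, a ≤ j + 1 → 0 ≤ yq e a ∧ yq e a ≤ κ := by
      intro a ha
      have h1 := ydiff a 0 (by omega)
      rw [Nat.zero_add] at h1
      change 0 ≤ yq e a - 0 ∧ yq e a - 0 ≤ a * (2 / lam) at h1
      rw [sub_zero] at h1
      refine ⟨h1.1, h1.2.trans ?_⟩
      rw [← mul_div_assoc, div_le_iff₀ lam0]
      have : (a : ℝ) ≤ (j : ℝ) + 1 := by exact_mod_cast ha
      linarith
    have prd : ∀ n a, a + n ≤ j + 1 → e a / e (a + n) ≤ κ ^ n := by
      intro n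
      induction n with
      | zero =>
        intro a ha
        rw [add_zero, div_self (ep a (by omega)).ne', pow_zero]
      | succ n ihn =>
        intro a ha
        have h1 := ep a (by omega)
        have h2 := ep (a + n) (by omega)
        have h3 := ep (a + n + 1) (by omega)
        have h4 : e a / e (a + (n + 1)) = e a / e (a + n) * yq e (a + n + 1) := by
          change e a / e (a + n + 1) = e a / e (a + n) * (e (a + n) / e (a + n + 1))
          field_simp
        rw [h4, pow_succ]
        exact mul_le_mul (ihn a (by omega)) (ysm _ (by omega)).2 (ysm _ (by omega)).1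
          (by positivity)
    have ej := ep j (by omega)
    have ej1 := ep (j + 1) le_rfl
    set Y := yq e (j + 1) with hY
    have hYe : Y = e j / e (j + 1) := rfl
    have q0 : 0 ≤ ρ * κ := by positivity
    have q1 : ρ * κ ≤ 1 / 2 := by linarith
    set u1 : ℝ := ((j : ℝ) + 2) * e (j + 2) / e (j + 1) with hu1
    set u0 : ℝ := ((j : ℝ) + 1) * e (j + 1) / e j with hu0
    -- the two expansions
    have a3 : u1 = ∑ i ∈ Finset.range (j + 1), (-1) ^ (i + 1) * p (i + 1 + 1) *
        (e (j - i) / e (j + 1)) + lam := by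
      have := hN (j + 1)
      rw [hu1]
      push_cast at this
      rw [show (j : ℝ) + 2 = (j : ℝ) + 1 + 1 by ring, this, Finset.sum_div,
        Finset.sum_range_succ', pow_zero, Nat.sub_zero, show (0 : ℕ) + 1 = 1 from rfl, p1]
      congr 1
      · refine Finset.sum_congr rfl fun i _ => ?_
        rw [Nat.add_sub_add_right, mul_div_assoc]
      · rw [one_mul, mul_div_assoc, div_self ej1.ne', mul_one]
    have a4 : u0 = ∑ i ∈ Finset.range (j + 1), (-1) ^ (i + 1) * p (i + 1 + 1) *
        (e (j - i) / e j * yq e (j - i)) + lam := by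
      have := hN j
      rw [hu0, this, Finset.sum_div, Finset.sum_range_succ', pow_zero, Nat.sub_zero,
        show (0 : ℕ) + 1 = 1 from rfl, p1, Finset.sum_range_succ (n := j), Nat.sub_self]
      congr 1
      · have b1 : yq e 0 = 0 := rfl
        rw [b1, mul_zero, mul_zero, add_zero]
        refine Finset.sum_congr rfl fun i hi => ?_
        rw [Finset.mem_range] at hi
        obtain ⟨a, rfl⟩ : ∃ a, j = i + 1 + a := ⟨j - (i + 1), by omega⟩
        rw [show i + 1 + a - (i + 1) = a by omega, show i + 1 + a - i = a + 1 by omega]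
        have c1 := ep (a + 1) (by omega)
        change _ = (-1 : ℝ) ^ (i + 1) * p (i + 1 + 1) *
          (e (a + 1) / e (i + 1 + a) * (e a / e (a + 1)))
        field_simp
      · rw [one_mul, mul_div_assoc, div_self ej.ne', mul_one]
    -- size of u1
    have hu1b : |u1 - lam| ≤ lam / 8 := by
      have b1 : u1 - lam = ∑ i ∈ Finset.range (j + 1), (-1) ^ (i + 1) * p (i + 1 + 1) *
          (e (j - i) / e (j + 1)) := by
        rw [a3]
        ring
      rw [b1]
      refine (Finset.abs_sum_le_sum_abs _ _).trans ?_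
      have b2 : ∀ i ∈ Finset.range (j + 1), |(-1 : ℝ) ^ (i + 1) * p (i + 1 + 1) *
          (e (j - i) / e (j + 1))| ≤ g * ρ ^ 2 * κ * (ρ * κ) ^ i := by
        intro i hi
        rw [Finset.mem_range] at hi
        rw [abs_mul, abs_mul, abs_pow, abs_neg, abs_one, one_pow, one_mul]
        have c1 : 0 ≤ e (j - i) / e (j + 1) := div_nonneg (ep _ (by omega)).le ej1.le
        rw [abs_of_nonneg c1]
        have c2 := prd (i + 1) (j - i) (by omega)
        rw [show j - i + (i + 1) = j + 1 by omega] at c2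
        have c3 := hp (i + 1)
        calc |p (i + 1 + 1)| * (e (j - i) / e (j + 1))
            ≤ g * ρ ^ (i + 1 + 1) * κ ^ (i + 1) := mul_le_mul c3 c2 c1 (by positivity)
          _ = g * ρ ^ 2 * κ * (ρ * κ) ^ i := by
              rw [mul_pow]
              ring
      refine (Finset.sum_le_sum b2).trans ?_
      rw [← Finset.mul_sum]
      have b3 := geo_le0 q0 q1 (j + 1)
      have b4 : g * ρ ^ 2 * κ * ∑ i ∈ Finset.range (j + 1), (ρ * κ) ^ i ≤ g * ρ ^ 2 * κ * 2 :=
        mul_le_mul_of_nonneg_left b3 (by positivity)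
      refine b4.trans ?_
      have b5 : 16 * ρ ^ 2 * κ * g ≤ c * g := mul_le_mul_of_nonneg_right hκ1 hg.le
      linarith
    have hu1pos : 7 / 8 * lam ≤ u1 := by
      have := (abs_le.1 hu1b).1
      linarith
    have u1p : 0 < u1 := lt_of_lt_of_le (by positivity) hu1pos
    have ej2 : 0 < e (j + 2) := by
      rw [hu1] at u1p
      have h1 : 0 < ((j : ℝ) + 2) * e (j + 2) := by
        by_contra hcon
        rw [not_lt] at hcon
        have := div_nonpos_of_nonpos_of_nonneg hcon ej1.le
        linarith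
      exact (pos_iff_pos_of_mul_pos h1).1 (by positivity)
    -- the difference
    have hdiff : |u1 - u0| ≤ 8 * ρ ^ 2 / c := by
      have b1 : u1 - u0 = ∑ i ∈ Finset.range (j + 1), (-1) ^ (i + 1) * p (i + 1 + 1) *
          (e (j - i) / e j * (Y - yq e (j - i))) := by
        rw [a3, a4, add_sub_add_right_eq_sub, ← Finset.sum_sub_distrib]
        refine Finset.sum_congr rfl fun i _ => ?_
        have : e (j - i) / e (j + 1) = e (j - i) / e j * Y := by
          rw [hYe]
          field_simp
        rw [this]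
        ring
      rw [b1]
      refine (Finset.abs_sum_le_sum_abs _ _).trans ?_
      have b2 : ∀ i ∈ Finset.range (j + 1), |(-1 : ℝ) ^ (i + 1) * p (i + 1 + 1) *
          (e (j - i) / e j * (Y - yq e (j - i)))| ≤
          2 * g * ρ ^ 2 / lam * (((i : ℝ) + 1) * (ρ * κ) ^ i) := by
        intro i hi
        rw [Finset.mem_range] at hi
        rw [abs_mul, abs_mul, abs_pow, abs_neg, abs_one, one_pow, one_mul]
        have c1 : 0 ≤ e (j - i) / e j := div_nonneg (ep _ (by omega)).le ej.le
        obtain ⟨c2, c3⟩ := ydiff (i + 1) (j - i) (by omega)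
        rw [show j - i + (i + 1) = j + 1 by omega] at c2 c3
        rw [abs_of_nonneg (mul_nonneg c1 (by rw [hY]; exact c2))]
        have c4 := prd i (j - i) (by omega)
        rw [show j - i + i = j by omega] at c4
        have c5 := hp (i + 1)
        have c6 : e (j - i) / e j * (Y - yq e (j - i)) ≤
            κ ^ i * (((i + 1 : ℕ) : ℝ) * (2 / lam)) :=
          mul_le_mul c4 (by rw [hY]; exact c3) (by rw [hY]; exact c2) (by positivity)
        calc |p (i + 1 + 1)| * (e (j - i) / e j * (Y - yq e (j - i)))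
            ≤ g * ρ ^ (i + 1 + 1) * (κ ^ i * (((i + 1 : ℕ) : ℝ) * (2 / lam))) :=
              mul_le_mul c5 c6 (mul_nonneg c1 (by rw [hY]; exact c2)) (by positivity)
          _ = 2 * g * ρ ^ 2 / lam * (((i : ℝ) + 1) * (ρ * κ) ^ i) := by
              rw [mul_pow]
              push_cast
              field_simp
              ring
      refine (Finset.sum_le_sum b2).trans ?_
      rw [← Finset.mul_sum]
      have b3 := geo_le1 q0 q1 (j + 1)
      have b4 : 2 * g * ρ ^ 2 / lam * ∑ i ∈ Finset.range (j + 1), ((i : ℝ) + 1) * (ρ * κ) ^ i ≤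
          2 * g * ρ ^ 2 / lam * 4 := mul_le_mul_of_nonneg_left b3 (by positivity)
      refine b4.trans ?_
      rw [div_mul_eq_mul_div, div_le_div_iff₀ lam0 hc]
      have b5 : 8 * ρ ^ 2 * (c * g) ≤ 8 * ρ ^ 2 * lam :=
        mul_le_mul_of_nonneg_left hlam (by positivity)
      linarith
    -- the new increment
    have main : (yq e (j + 1 + 1) - Y) * u1 = 1 - Y * (u1 - u0) := by
      have m1 : yq e (j + 1 + 1) * u1 = (j : ℝ) + 2 := by
        change e (j + 1) / e (j + 2) * u1 = _
        rw [hu1]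
        field_simp
      have m2 : Y * u0 = (j : ℝ) + 1 := by
        rw [hYe, hu0]
        field_simp
      rw [sub_mul, m1, mul_sub, m2]
      ring
    obtain ⟨y0, y1⟩ := ysm (j + 1) le_rfl
    have hYb : |Y * (u1 - u0)| ≤ 1 / 2 := by
      rw [abs_mul, abs_of_nonneg y0]
      calc Y * |u1 - u0| ≤ κ * (8 * ρ ^ 2 / c) :=
            mul_le_mul y1 hdiff (abs_nonneg _) hκ0.le
        _ ≤ 1 / 2 := by
            rw [← mul_div_assoc, div_le_iff₀ hc]
            linarith
    obtain ⟨z1, z2⟩ := abs_le.1 hYb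
    have r1 : 1 / 2 ≤ (yq e (j + 1 + 1) - Y) * u1 := by
      rw [main]
      linarith
    have r1' : (yq e (j + 1 + 1) - Y) * u1 ≤ 3 / 2 := by
      rw [main]
      linarith
    have r2 : 0 < yq e (j + 1 + 1) - Y :=
      (pos_iff_pos_of_mul_pos (lt_of_lt_of_le (by norm_num) r1)).2 u1p
    refine ⟨?_, ?_⟩
    · intro s hs
      rcases Nat.lt_or_ge s (j + 2) with h | h
      · exact ep s (by omega)
      · obtain rfl : s = j + 2 := by omega
        exact ej2
    · intro s hs
      rcases Nat.lt_or_ge s (j + 1) with h | h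
      · exact IH s (by omega)
      · obtain rfl : s = j + 1 := by omega
        refine ⟨r2.le, ?_⟩
        rw [le_div_iff₀ lam0]
        have r3 : (yq e (j + 1 + 1) - Y) * (7 / 8 * lam) ≤ (yq e (j + 1 + 1) - Y) * u1 :=
          mul_le_mul_of_nonneg_left hu1pos r2.le
        linarith

/-- **Top coefficients.** -/
theorem top_lc (ρ c : ℝ) (hρ : 0 < ρ) (hc : 0 < c) : ∃ η : ℝ, 0 < η ∧ ∀ P : ℝ[X],
    0 < P.leadingCoeff → (∀ z ∈ (P.map Complex.ofRealHom).roots, ‖z‖ ≤ ρ) →
    c * P.natDegree * P.leadingCoeff ≤ P.coeff (P.natDegree - 1) →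
    ∀ k : ℕ, 1 ≤ k → (P.natDegree : ℝ) ≤ k + η * P.natDegree →
      P.coeff (k - 1) * P.coeff (k + 1) ≤ P.coeff k ^ 2 := by
  obtain ⟨κ, hκ0, hκ1, hκ2⟩ : ∃ κ : ℝ, 0 < κ ∧ 16 * ρ ^ 2 * κ ≤ c ∧ 2 * ρ * κ ≤ 1 := by
    refine ⟨min (c / (16 * ρ ^ 2)) (1 / (2 * ρ)), by positivity, ?_, ?_⟩
    · have := min_le_left (c / (16 * ρ ^ 2)) (1 / (2 * ρ))
      rwa [le_div_iff₀ (by positivity), mul_comm] at this
    · have := min_le_right (c / (16 * ρ ^ 2)) (1 / (2 * ρ))
      rwa [le_div_iff₀ (by positivity), mul_comm] at this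
  refine ⟨κ * c / 2, by positivity, fun P hl hroots hlam k hk1 hk => ?_⟩
  set g := P.natDegree with hg
  set l := P.leadingCoeff with hl'
  have hlc : P.coeff g = l := rfl
  -- trivial cases
  rcases Nat.lt_or_ge k g with hkg | hkg
  swap
  · rw [Polynomial.coeff_eq_zero_of_natDegree_lt (show P.natDegree < k + 1 by omega), mul_zero]
    positivity
  have hg1 : 1 ≤ g := by omega
  have hgR : (0 : ℝ) < g := by exact_mod_cast hg1
  set e : ℕ → ℝ := fun j => if j ≤ g then P.coeff (g - j) / l else 0 with he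
  have he0 : e 0 = 1 := by
    simp only [he, Nat.zero_le, if_true, Nat.sub_zero, hlc]
    exact div_self hl.ne'
  have heg : ∀ j, g < j → e j = 0 := by
    intro j hj
    simp only [he]
    rw [if_neg (by omega)]
  have hsum : ∀ t : ℂ, (l : ℂ) * ∑ j ∈ Finset.range (g + 1), (e j : ℂ) * t ^ (g - j) =
      (P.map Complex.ofRealHom).eval t := by
    intro t
    rw [Polynomial.eval_eq_sum_range' (n := g + 1)
      (Nat.lt_succ_of_le Polynomial.natDegree_map_le), ← Finset.sum_range_reflect, Finset.mul_sum]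
    refine Finset.sum_congr rfl fun j hj => ?_
    rw [Finset.mem_range] at hj
    rw [Polynomial.coeff_map, show g + 1 - 1 - j = g - j by omega]
    simp only [he]
    rw [if_pos (by omega : g - j ≤ g), show g - (g - j) = j by omega]
    have : (l : ℂ) ≠ 0 := by exact_mod_cast hl.ne'
    change (l : ℂ) * (((P.coeff j / l : ℝ) : ℂ) * t ^ j) = ((P.coeff j : ℝ) : ℂ) * t ^ j
    push_cast
    field_simp
  have hQ : P.map Complex.ofRealHom ≠ 0 := by
    intro h0
    have h1 : (P.map Complex.ofRealHom).coeff g = 0 := by rw [h0]; simp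
    rw [Polynomial.coeff_map, hlc] at h1
    have : (l : ℂ) = 0 := h1
    exact hl.ne' (by exact_mod_cast this)
  obtain ⟨p, hp, hN⟩ := newton_seq_gen g e he0 heg ρ (by
    intro t ht
    apply hroots
    rw [Polynomial.mem_roots hQ, Polynomial.IsRoot, ← hsum, ht, mul_zero])
  have he1 : c * g ≤ e 1 := by
    simp only [he]
    rw [if_pos hg1, le_div_iff₀ hl]
    exact hlam
  set m := g - k with hm
  have hmk : m + k = g := by omega
  have hmR : (m : ℝ) + k = g := by exact_mod_cast hmk
  have hm2 : 2 * (m : ℝ) ≤ κ * e 1 := by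
    have h1 : (m : ℝ) ≤ κ * c / 2 * g := by linarith
    have h2 : κ * (c * g) ≤ κ * e 1 := mul_le_mul_of_nonneg_left he1 hκ0.le
    linarith
  obtain ⟨h1, h2⟩ := incr_gen he0 rfl hgR hc hρ he1 hκ0 hκ1 hκ2 hp hN m hm2
  have h3 := (h2 m le_rfl).1
  have hm1 : 1 ≤ m := by omega
  obtain ⟨m', hm'⟩ : ∃ m', m = m' + 1 := ⟨m - 1, by omega⟩
  rw [hm'] at h1 h3
  have h4 : e m' / e (m' + 1) ≤ e (m' + 1) / e (m' + 1 + 1) := by
    change 0 ≤ e (m' + 1) / e (m' + 1 + 1) - e m' / e (m' + 1) at h3
    linarith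
  rw [div_le_div_iff₀ (h1 _ (by omega)) (h1 _ (by omega))] at h4
  have c0 : P.coeff (k + 1) = l * e m' := by
    simp only [he]
    rw [if_pos (by omega), show g - m' = k + 1 by omega]
    field_simp
  have c1 : P.coeff k = l * e (m' + 1) := by
    simp only [he]
    rw [if_pos (by omega), show g - (m' + 1) = k by omega]
    field_simp
  have c2 : P.coeff (k - 1) = l * e (m' + 1 + 1) := by
    simp only [he]
    rw [if_pos (by omega), show g - (m' + 1 + 1) = k - 1 by omega]
    field_simp
  rw [c0, c1, c2]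
  calc l * e (m' + 1 + 1) * (l * e m') = l ^ 2 * (e m' * e (m' + 1 + 1)) := by ring
    _ ≤ l ^ 2 * (e (m' + 1) * e (m' + 1)) := mul_le_mul_of_nonneg_left h4 (by positivity)
    _ = (l * e (m' + 1)) ^ 2 := by ring

end Pool.Agent.Helper49.EV
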