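import Pool.Agent.Helper49.EV.Low

/-!
# Low coefficients: many small zeros
-/

set_option autoImplicit false

namespace Pool.Agent.Helper49.EV

open Polynomial Pool.Agent.Helper49.ZB

theorem eq_prod (P : ℂ[X]) (h0 : P.coeff 0 ≠ 0) :
    P = C (P.coeff 0) * (P.roots.map fun z => (1 + C (-z⁻¹) * X : ℂ[X])).prod := by
  ext k
  rw [Polynomial.coeff_C_mul]
  have h1 : (P.roots.map fun z => (1 + C (-z⁻¹) * X : ℂ[X])) =
      ((P.roots.map fun z => -z⁻¹).map fun a => (1 + C a * X : ℂ[X])) := by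
    rw [Multiset.map_map]
    rfl
  rw [h1, coeff_prod, ← coeff_eq P h0]

/-- the inequality for one factor, real case -/
theorem factor_real {ρ x : ℝ} (hρ : 0 < ρ) (hx : 0 < x) :
    Real.log (1 + 16 * ρ * x) ≤ Real.log (1 + ρ * x) +
      (if (1024 * ρ)⁻¹ ≤ x then Real.log 16 else 0) + 1 / 32 * Real.log (1 + 1024 * ρ * x) := by
  have h1 : 0 < 1 + ρ * x := by positivity
  have h16 : 0 < 1 + 16 * ρ * x := by positivity
  have hs : 0 < 1 + 1024 * ρ * x := by positivity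
  have hs0 : 0 ≤ Real.log (1 + 1024 * ρ * x) := Real.log_nonneg (by
    have : 0 < 1024 * ρ * x := by positivity
    linarith)
  split_ifs with h
  · have h2 : 1 + 16 * ρ * x ≤ (1 + ρ * x) * 16 := by nlinarith
    have h3 : Real.log (1 + 16 * ρ * x) ≤ Real.log ((1 + ρ * x) * 16) := Real.log_le_log h16 h2
    rw [Real.log_mul h1.ne' (by norm_num)] at h3
    linarith
  · rw [not_le] at h
    have hy : 1024 * ρ * x < 1 := by
      have h4 : 0 < 1024 * ρ := by positivity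
      have h5 := mul_lt_mul_of_pos_left h h4
      rwa [mul_inv_cancel₀ h4.ne'] at h5
    have h2 : 1 + 16 * ρ * x ≤ (1 + ρ * x) * (1 + 15 * ρ * x) := by
      nlinarith [mul_pos hρ hx, mul_pos (mul_pos hρ hx) (mul_pos hρ hx)]
    have h3 : Real.log (1 + 16 * ρ * x) ≤ Real.log (1 + ρ * x) + Real.log (1 + 15 * ρ * x) := by
      have h15 : 0 < 1 + 15 * ρ * x := by positivity
      rw [← Real.log_mul h1.ne' h15.ne']
      exact Real.log_le_log h16 h2
    have h4 : Real.log (1 + 15 * ρ * x) ≤ 15 * ρ * x := by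
      have := Real.log_le_sub_one_of_pos (show 0 < 1 + 15 * ρ * x by positivity)
      linarith
    have h5 : 480 * ρ * x ≤ Real.log (1 + 1024 * ρ * x) := by
      rw [Real.le_log_iff_exp_le hs]
      set t : ℝ := 480 * ρ * x with ht
      have t0 : 0 ≤ t := by positivity
      have t1 : t ≤ 15 / 32 := by
        rw [ht]
        linarith
      have h6 : Real.exp t ≤ 1 + t + t ^ 2 := by
        have := Real.abs_exp_sub_one_sub_id_le (x := t) (by rw [abs_of_nonneg t0]; linarith)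
        have := (abs_le.1 this).2
        linarith
      have h7 : 1024 * ρ * x = 32 / 15 * t := by
        rw [ht]
        ring
      rw [h7]
      nlinarith
    linarith

/-- the inequality for one factor -/
theorem factor_ineq {ρ eps : ℝ} (hρ : 0 < ρ) (heps : 0 < eps) (hρe : 2048 * ρ ≤ eps) {w : ℂ}
    (hw : (w.im = 0 ∧ 0 < w.re) ∨ ‖w‖ ≤ eps⁻¹) :
    (1 + w * (ρ : ℂ) ≠ 0 ∧ 1 + w * ((16 * ρ : ℝ) : ℂ) ≠ 0 ∧ 1 + w * ((1024 * ρ : ℝ) : ℂ) ≠ 0) ∧
    Real.log ‖1 + w * ((16 * ρ : ℝ) : ℂ)‖ ≤ Real.log ‖1 + w * (ρ : ℂ)‖ +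
      (if (1024 * ρ)⁻¹ ≤ ‖w‖ then Real.log 16 else 0) +
      1 / 32 * Real.log ‖1 + w * ((1024 * ρ : ℝ) : ℂ)‖ + 1024 * ρ / eps := by
  rcases hw with ⟨h1, h2⟩ | h
  · obtain ⟨x, rfl⟩ : ∃ x : ℝ, w = (x : ℂ) := ⟨w.re, by
      apply Complex.ext
      · simp
      · simp [h1]⟩
    rw [Complex.ofReal_re] at h2
    have e : ∀ r : ℝ, (1 : ℂ) + (x : ℂ) * (r : ℂ) = ((1 + r * x : ℝ) : ℂ) := by
      intro r
      push_cast
      ring
    have p : ∀ r : ℝ, 0 < r → 0 < 1 + r * x := by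
      intro r hr
      positivity
    have n : ∀ r : ℝ, 0 < r → ‖((1 + r * x : ℝ) : ℂ)‖ = 1 + r * x := by
      intro r hr
      rw [Complex.norm_real, Real.norm_eq_abs, abs_of_pos (p r hr)]
    rw [e, e, e, n _ hρ, n _ (by positivity), n _ (by positivity), Complex.norm_real,
      Real.norm_eq_abs, abs_of_pos h2]
    refine ⟨⟨?_, ?_, ?_⟩, ?_⟩
    · exact_mod_cast (p _ hρ).ne'
    · exact_mod_cast (p (16 * ρ) (by positivity)).ne'
    · exact_mod_cast (p (1024 * ρ) (by positivity)).ne'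
    · have := factor_real hρ h2
      have h3 : 0 ≤ 1024 * ρ / eps := by positivity
      linarith
  · have hb : ∀ r : ℝ, 0 < r → ‖w * (r : ℂ)‖ ≤ r / eps := by
      intro r hr
      rw [norm_mul, Complex.norm_real, Real.norm_eq_abs, abs_of_pos hr, div_eq_inv_mul]
      exact mul_le_mul_of_nonneg_right h hr.le
    have lo : ∀ r : ℝ, 0 < r → r ≤ 1024 * ρ → 1 - r / eps ≤ ‖1 + w * (r : ℂ)‖ := by
      intro r hr _
      have h3 : ‖(1 : ℂ)‖ - ‖w * (r : ℂ)‖ ≤ ‖1 + w * (r : ℂ)‖ := by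
        have := norm_sub_norm_le (1 : ℂ) (-(w * (r : ℂ)))
        rwa [norm_neg, sub_neg_eq_add] at this
      rw [norm_one] at h3
      linarith [hb r hr]
    have half : ∀ r : ℝ, 0 < r → r ≤ 1024 * ρ → r / eps ≤ 1 / 2 := by
      intro r _ hr2
      rw [div_le_div_iff₀ heps (by norm_num)]
      linarith
    have lolog : ∀ r : ℝ, 0 < r → r ≤ 1024 * ρ → -(2 * (r / eps)) ≤ Real.log ‖1 + w * (r : ℂ)‖ := by
      intro r hr hr2
      have h3 := lo r hr hr2
      have h4 := half r hr hr2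
      have h5 : 0 < ‖1 + w * (r : ℂ)‖ := by linarith
      rw [Real.le_log_iff_exp_le h5]
      refine le_trans ?_ h3
      have h6 : 0 < r / eps := by positivity
      set t := r / eps with ht
      -- exp (-2t) ≤ 1 - t
      have h7 : 1 + 2 * t ≤ Real.exp (2 * t) := by linarith [Real.add_one_le_exp (2 * t)]
      rw [Real.exp_neg]
      rw [inv_le_comm₀ (Real.exp_pos _) (by linarith)]
      refine le_trans ?_ h7
      rw [inv_le_iff_one_le_mul₀ (by linarith)]
      nlinarith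
    have nz : ∀ r : ℝ, 0 < r → r ≤ 1024 * ρ → 1 + w * (r : ℂ) ≠ 0 := by
      intro r hr hr2 h0
      have h3 := lo r hr hr2
      rw [h0, norm_zero] at h3
      linarith [half r hr hr2]
    have up : Real.log ‖1 + w * ((16 * ρ : ℝ) : ℂ)‖ ≤ 16 * ρ / eps := by
      have h3 : ‖1 + w * ((16 * ρ : ℝ) : ℂ)‖ ≤ 1 + 16 * ρ / eps := by
        refine (norm_add_le _ _).trans ?_
        rw [norm_one]
        linarith [hb (16 * ρ) (by positivity)]
      have h4 : 0 < ‖1 + w * ((16 * ρ : ℝ) : ℂ)‖ :=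
        norm_pos_iff.2 (nz _ (by positivity) (by linarith))
      have h5 := Real.log_le_sub_one_of_pos h4
      linarith
    refine ⟨⟨nz _ hρ (by linarith), nz _ (by positivity) (by linarith),
      nz _ (by positivity) le_rfl⟩, ?_⟩
    have a1 := lolog ρ hρ (by linarith)
    have a2 := lolog (1024 * ρ) (by positivity) le_rfl
    have a3 : 0 ≤ (if (1024 * ρ)⁻¹ ≤ ‖w‖ then Real.log 16 else (0 : ℝ)) := by
      split_ifs
      · exact Real.log_nonneg (by norm_num)
      · exact le_rfl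
    have a4 : 16 * ρ / eps = 16 * (ρ / eps) := by ring
    have a5 : 1024 * ρ / eps = 1024 * (ρ / eps) := by ring
    have a6 : 0 < ρ / eps := by positivity
    rw [a4] at up
    rw [a5] at a2 ⊢
    linarith

/-- the inequality for a product -/
theorem prod_ineq {ρ eps : ℝ} (hρ : 0 < ρ) (heps : 0 < eps) (hρe : 2048 * ρ ≤ eps)
    (s : Multiset ℂ) (hs : ∀ w ∈ s, (w.im = 0 ∧ 0 < w.re) ∨ ‖w‖ ≤ eps⁻¹) :
    ((s.map fun w => 1 + w * (ρ : ℂ)).prod ≠ 0 ∧
      (s.map fun w => 1 + w * ((16 * ρ : ℝ) : ℂ)).prod ≠ 0 ∧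
      (s.map fun w => 1 + w * ((1024 * ρ : ℝ) : ℂ)).prod ≠ 0) ∧
    Real.log ‖(s.map fun w => 1 + w * ((16 * ρ : ℝ) : ℂ)).prod‖ ≤
      Real.log ‖(s.map fun w => 1 + w * (ρ : ℂ)).prod‖ +
      Multiset.card (s.filter fun w => (1024 * ρ)⁻¹ ≤ ‖w‖) * Real.log 16 +
      1 / 32 * Real.log ‖(s.map fun w => 1 + w * ((1024 * ρ : ℝ) : ℂ)).prod‖ +
      Multiset.card s * (1024 * ρ / eps) := by
  induction s using Multiset.induction_on with
  | empty => simp
  | cons w s ih =>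
    obtain ⟨⟨i1, i2, i3⟩, i4⟩ := ih fun y hy => hs y (Multiset.mem_cons_of_mem hy)
    obtain ⟨⟨j1, j2, j3⟩, j4⟩ := factor_ineq hρ heps hρe (hs w (Multiset.mem_cons_self _ _))
    simp only [Multiset.map_cons, Multiset.prod_cons]
    refine ⟨⟨mul_ne_zero j1 i1, mul_ne_zero j2 i2, mul_ne_zero j3 i3⟩, ?_⟩
    rw [norm_mul, norm_mul, norm_mul, Real.log_mul (norm_ne_zero_iff.2 j1) (norm_ne_zero_iff.2 i1),
      Real.log_mul (norm_ne_zero_iff.2 j2) (norm_ne_zero_iff.2 i2),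
      Real.log_mul (norm_ne_zero_iff.2 j3) (norm_ne_zero_iff.2 i3), Multiset.card_cons]
    by_cases hw : (1024 * ρ)⁻¹ ≤ ‖w‖
    · rw [if_pos hw] at j4
      rw [Multiset.filter_cons_of_pos (p := fun w : ℂ => (1024 * ρ)⁻¹ ≤ ‖w‖) _ hw, Multiset.card_cons]
      simp only [Nat.cast_add, Nat.cast_one]
      linarith
    · rw [if_neg hw] at j4
      rw [Multiset.filter_cons_of_neg (p := fun w : ℂ => (1024 * ρ)⁻¹ ≤ ‖w‖) _ hw]
      simp only [Nat.cast_add, Nat.cast_one]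
      linarith

/-- comparison of the values of a polynomial at three points -/
theorem key (P : ℝ[X]) (hP0 : 1 ≤ P.coeff 0) {eps ρ : ℝ} (hρ : 0 < ρ) (heps : 0 < eps)
    (hρe : 2048 * ρ ≤ eps)
    (hreal : ∀ z ∈ (P.map Complex.ofRealHom).roots, ‖z‖ < eps → z.im = 0 ∧ z.re < 0)
    (h1 : 0 < P.eval ρ) (h16 : 0 < P.eval (16 * ρ)) (h1024 : 0 < P.eval (1024 * ρ)) :
    Real.log (P.eval (16 * ρ)) ≤ Real.log (P.eval ρ) +
      Multiset.card ((P.map Complex.ofRealHom).roots.filter fun z => ‖z‖ ≤ 1024 * ρ) *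
        Real.log 16 + 1 / 32 * Real.log (P.eval (1024 * ρ)) +
      P.natDegree * (1024 * ρ / eps) := by
  classical
  set Q : ℂ[X] := P.map Complex.ofRealHom with hQ
  have hQc : ∀ j, Q.coeff j = ((P.coeff j : ℝ) : ℂ) := fun j => by
    rw [hQ, Polynomial.coeff_map]
    rfl
  have hP0' : 0 < P.coeff 0 := by linarith
  have hQ0 : Q.coeff 0 ≠ 0 := by
    rw [hQc]
    exact_mod_cast hP0'.ne'
  have hQne : Q ≠ 0 := by
    intro h
    rw [h] at hQ0
    simp at hQ0
  have hz0 : ∀ z ∈ Q.roots, z ≠ 0 := by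
    rintro z hz rfl
    have := (Polynomial.mem_roots hQne).1 hz
    rw [Polynomial.IsRoot, ← Polynomial.coeff_zero_eq_eval_zero] at this
    exact hQ0 this
  set s : Multiset ℂ := Q.roots.map fun z => -z⁻¹ with hs
  have hmem : ∀ w ∈ s, (w.im = 0 ∧ 0 < w.re) ∨ ‖w‖ ≤ eps⁻¹ := by
    intro w hw
    rw [hs, Multiset.mem_map] at hw
    obtain ⟨z, hz, rfl⟩ := hw
    by_cases h : ‖z‖ < eps
    · left
      obtain ⟨a1, a2⟩ := hreal z hz h
      have a3 : z = (z.re : ℂ) := by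
        apply Complex.ext
        · simp
        · simp [a1]
      rw [a3, ← Complex.ofReal_inv, ← Complex.ofReal_neg]
      refine ⟨Complex.ofReal_im _, ?_⟩
      rw [Complex.ofReal_re]
      have := inv_lt_zero.2 a2
      linarith
    · right
      rw [norm_neg, norm_inv]
      exact inv_anti₀ heps (not_lt.1 h)
  have heval : ∀ r : ℝ, ((P.eval r : ℝ) : ℂ) =
      (P.coeff 0 : ℂ) * (s.map fun w => 1 + w * (r : ℂ)).prod := by
    intro r
    have e1 : ((P.eval r : ℝ) : ℂ) = Q.eval (r : ℂ) := by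
      rw [hQ]
      exact (Polynomial.eval_map_apply Complex.ofRealHom r).symm
    have e2 := congrArg (fun R : ℂ[X] => R.eval (r : ℂ)) (eq_prod Q hQ0)
    simp only [Polynomial.eval_mul, Polynomial.eval_C, Polynomial.eval_multiset_prod,
      Multiset.map_map, Function.comp_def, Polynomial.eval_add, Polynomial.eval_one,
      Polynomial.eval_X] at e2
    rw [e1, e2, hQc, hs, Multiset.map_map]
    rfl
  obtain ⟨⟨n1, n2, n3⟩, hineq⟩ := prod_ineq hρ heps hρe s hmem
  have hlog : ∀ r : ℝ, 0 < P.eval r → (s.map fun w => 1 + w * (r : ℂ)).prod ≠ 0 →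
      Real.log (P.eval r) = Real.log (P.coeff 0) +
        Real.log ‖(s.map fun w => 1 + w * (r : ℂ)).prod‖ := by
    intro r hr hne
    have e1 := congrArg norm (heval r)
    rw [norm_mul, Complex.norm_real, Complex.norm_real, Real.norm_eq_abs, Real.norm_eq_abs,
      abs_of_pos hr, abs_of_pos hP0'] at e1
    rw [e1, Real.log_mul hP0'.ne' (norm_ne_zero_iff.2 hne)]
  rw [hlog _ h16 n2, hlog _ h1 n1, hlog _ h1024 n3]
  have hlog0 : 0 ≤ Real.log (P.coeff 0) := Real.log_nonneg hP0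
  have hcard : Multiset.card s ≤ P.natDegree := by
    rw [hs, Multiset.card_map]
    exact (Polynomial.card_roots' _).trans Polynomial.natDegree_map_le
  have hcard' : (Multiset.card s : ℝ) * (1024 * ρ / eps) ≤ P.natDegree * (1024 * ρ / eps) :=
    mul_le_mul_of_nonneg_right (by exact_mod_cast hcard) (by positivity)
  have hfil : Multiset.card (s.filter fun w => (1024 * ρ)⁻¹ ≤ ‖w‖) ≤
      Multiset.card (Q.roots.filter fun z => ‖z‖ ≤ 1024 * ρ) := by
    rw [hs, Multiset.filter_map, Multiset.card_map]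
    apply Multiset.card_le_card
    apply Multiset.monotone_filter_right
    intro z hz
    simp only [Function.comp_apply, norm_neg, norm_inv] at hz
    by_contra hcon
    rw [not_le] at hcon
    have : ‖z‖⁻¹ < (1024 * ρ)⁻¹ := inv_strictAnti₀ (by positivity) hcon
    linarith
  have hfil' : (Multiset.card (s.filter fun w => (1024 * ρ)⁻¹ ≤ ‖w‖) : ℝ) * Real.log 16 ≤
      Multiset.card (Q.roots.filter fun z => ‖z‖ ≤ 1024 * ρ) * Real.log 16 :=
    mul_le_mul_of_nonneg_right (by exact_mod_cast hfil) (Real.log_nonneg (by norm_num))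
  linarith

/-! ### The asymptotic statement -/

theorem sinh_le_two {x : ℝ} (h0 : 0 ≤ x) (h1 : x ≤ 1) : Real.sinh x ≤ 2 * x := by
  rw [Real.sinh_eq]
  have h2 : Real.exp x ≤ 1 + x + x ^ 2 := by
    have := Real.abs_exp_sub_one_sub_id_le (x := x) (by rw [abs_of_nonneg h0]; exact h1)
    have := (abs_le.1 this).2
    linarith
  have h3 : 1 - x ≤ Real.exp (-x) := by linarith [Real.add_one_le_exp (-x)]
  nlinarith

theorem two_sinh_le {x : ℝ} (h0 : 0 ≤ x) : 2 * Real.sinh x ≤ Real.sinh (2 * x) := by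
  rw [Real.sinh_two_mul]
  have h1 := Real.one_le_cosh x
  have h2 : 0 ≤ Real.sinh x := Real.sinh_nonneg_iff.2 h0
  nlinarith

theorem sinh_32 {x : ℝ} (h0 : 0 ≤ x) : 32 * Real.sinh x ≤ Real.sinh (32 * x) := by
  have h1 := two_sinh_le h0
  have h2 := two_sinh_le (x := 2 * x) (by positivity)
  have h3 := two_sinh_le (x := 4 * x) (by positivity)
  have h4 := two_sinh_le (x := 8 * x) (by positivity)
  have h5 := two_sinh_le (x := 16 * x) (by positivity)
  rw [show 2 * (2 * x) = 4 * x by ring] at h2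
  rw [show 2 * (4 * x) = 8 * x by ring] at h3
  rw [show 2 * (8 * x) = 16 * x by ring] at h4
  rw [show 2 * (16 * x) = 32 * x by ring] at h5
  linarith

theorem low_core (Phi eps c Cc C2 : ℝ) (a : ℕ) (hPhi : 0 < Phi) (heps : 0 < eps) (hc : 0 < c)
    (hC : 0 < Cc) (hC2 : 0 < C2) :
    ∃ L0 : ℕ, ∀ L : ℕ, L0 ≤ L → ∀ P : ℝ[X], 1 ≤ P.coeff 0 → 2 * P.natDegree ≤ L →
      (∀ x : ℝ, 0 < x → x ≤ Phi → c * x ^ a * Real.exp (L * x) ≤ P.eval (4 * Real.sinh x ^ 2) ∧
        x ^ a * P.eval (4 * Real.sinh x ^ 2) ≤ Cc * Real.exp (L * x)) →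
      (∀ z ∈ (P.map Complex.ofRealHom).roots, ‖z‖ < eps → z.im = 0 ∧ z.re < 0) →
      ∀ k : ℕ, 1 ≤ k → (k : ℝ) ≤ C2 * Real.log L →
        0 < P.coeff k ∧ P.coeff (k - 1) * P.coeff (k + 1) < P.coeff k ^ 2 := by
  classical
  set M : ℝ := 3 * a + 6 * C2 + 1 with hM
  have a0 : (0 : ℝ) ≤ a := by positivity
  have hM1 : 1 ≤ M := by linarith
  set KK : ℝ := |Real.log c| + 2 * |Real.log Cc| + 1 with hKK
  obtain ⟨η, hη, b1, b2, b3, b4⟩ : ∃ η : ℝ, 0 < η ∧ 32 * M * η ≤ Phi ∧ 4 * M * η ≤ 1 ∧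
      32768 * M ^ 2 * η ≤ eps ∧ 65536 * (C2 + 1) * M ^ 2 * η ≤ eps := by
    have m1 : 0 < 32 * M := by positivity
    have m2 : 0 < 4 * M := by positivity
    have m3 : 0 < 32768 * M ^ 2 := by positivity
    have m4 : 0 < 65536 * (C2 + 1) * M ^ 2 := by positivity
    refine ⟨min (min (Phi / (32 * M)) (1 / (4 * M)))
      (min (eps / (32768 * M ^ 2)) (eps / (65536 * (C2 + 1) * M ^ 2))), by positivity, ?_, ?_, ?_, ?_⟩
    · have := (min_le_left (min (Phi / (32 * M)) (1 / (4 * M)))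
        (min (eps / (32768 * M ^ 2)) (eps / (65536 * (C2 + 1) * M ^ 2)))).trans (min_le_left _ _)
      rwa [le_div_iff₀ m1, mul_comm] at this
    · have := (min_le_left (min (Phi / (32 * M)) (1 / (4 * M)))
        (min (eps / (32768 * M ^ 2)) (eps / (65536 * (C2 + 1) * M ^ 2)))).trans (min_le_right _ _)
      rwa [le_div_iff₀ m2, mul_comm] at this
    · have := (min_le_right (min (Phi / (32 * M)) (1 / (4 * M)))
        (min (eps / (32768 * M ^ 2)) (eps / (65536 * (C2 + 1) * M ^ 2)))).trans (min_le_left _ _)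
      rwa [le_div_iff₀ m3, mul_comm] at this
    · have := (min_le_right (min (Phi / (32 * M)) (1 / (4 * M)))
        (min (eps / (32768 * M ^ 2)) (eps / (65536 * (C2 + 1) * M ^ 2)))).trans (min_le_right _ _)
      rwa [le_div_iff₀ m4, mul_comm] at this
  have ev1 : ∀ᶠ L : ℕ in Filter.atTop, 6 + KK ≤ Real.log (L : ℝ) :=
    (Real.tendsto_log_atTop.comp tendsto_natCast_atTop_atTop).eventually_ge_atTop _
  have ev2 : ∀ᶠ L : ℕ in Filter.atTop, Real.log (L : ℝ) ^ 3 / (1 * (L : ℝ) + 0) < η := by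
    have h1 := (Real.tendsto_pow_log_div_mul_add_atTop 1 0 3 one_ne_zero).comp
      (tendsto_natCast_atTop_atTop (R := ℝ))
    exact (tendsto_order.1 h1).2 _ hη
  obtain ⟨L0, hL0⟩ := Filter.eventually_atTop.1 ((ev1.and ev2).and (Filter.eventually_ge_atTop 1))
  refine ⟨L0, fun L hL P hP0 hdeg hH hreal k hk1 hk => ?_⟩
  obtain ⟨⟨c1, c2⟩, c3⟩ := hL0 L hL
  rw [one_mul, add_zero] at c2
  set l := Real.log (L : ℝ) with hl
  have KK1 : 1 ≤ KK := by
    have := abs_nonneg (Real.log c)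
    have := abs_nonneg (Real.log Cc)
    linarith
  have hl1 : 1 ≤ l := by linarith
  have hLpos : (0 : ℝ) < L := by
    have : 0 < L := by omega
    exact_mod_cast this
  set ξ : ℝ := M * l / L with hξ
  have hξ0 : 0 < ξ := by positivity
  have hl3 : l ≤ l ^ 3 := by nlinarith [mul_nonneg (sub_nonneg.2 hl1) (sub_nonneg.2 hl1)]
  have hξη : ξ ≤ M * η := by
    rw [hξ, mul_div_assoc]
    apply mul_le_mul_of_nonneg_left _ (by linarith)
    exact (div_le_div_of_nonneg_right hl3 hLpos.le).trans c2.le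
  have hξΦ : 32 * ξ ≤ Phi := by linarith
  have hξ4 : ξ ≤ 1 / 4 := by linarith
  have hsh : Real.sinh ξ ≤ 2 * ξ := sinh_le_two hξ0.le (by linarith)
  have hsh0 : 0 < Real.sinh ξ := Real.sinh_pos_iff.2 hξ0
  set ρ : ℝ := 4 * Real.sinh ξ ^ 2 with hρ
  have hρ0 : 0 < ρ := by positivity
  have hρ1 : ρ ≤ 16 * ξ ^ 2 := by
    rw [hρ]
    have := pow_le_pow_left₀ hsh0.le hsh 2
    linarith
  have hξ2 : ξ ^ 2 = M ^ 2 * (l ^ 2 / L) / L := by
    rw [hξ]
    field_simp
  have hl2 : l ^ 2 / L ≤ η := by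
    have : l ^ 2 ≤ l ^ 3 := by nlinarith [sq_nonneg l]
    exact (div_le_div_of_nonneg_right this hLpos.le).trans c2.le
  have hL1 : (1 : ℝ) ≤ L := by exact_mod_cast c3
  have hξ2' : ξ ^ 2 * L = M ^ 2 * (l ^ 2 / L) := by
    rw [hξ2]
    field_simp
  have hξsq : ξ ^ 2 ≤ M ^ 2 * η := by
    have h1 : ξ ^ 2 ≤ ξ ^ 2 * L := by nlinarith [sq_nonneg ξ]
    rw [hξ2'] at h1
    exact h1.trans (mul_le_mul_of_nonneg_left hl2 (by positivity))
  have hρe : 2048 * ρ ≤ eps := by linarith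
  -- the three points
  set ξ2 : ℝ := Real.arsinh (4 * Real.sinh ξ) with hx2
  set ξ3 : ℝ := Real.arsinh (32 * Real.sinh ξ) with hx3
  have s2 : Real.sinh ξ2 = 4 * Real.sinh ξ := Real.sinh_arsinh _
  have s3 : Real.sinh ξ3 = 32 * Real.sinh ξ := Real.sinh_arsinh _
  have l2 : 3 * ξ ≤ ξ2 := by
    rw [← Real.sinh_le_sinh, s2, Real.sinh_three_mul]
    have h1 : Real.sinh ξ ≤ 1 / 2 := by linarith
    have h2 : Real.sinh ξ ^ 2 ≤ (1 / 2) ^ 2 := pow_le_pow_left₀ hsh0.le h1 2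
    have h3 : 4 * Real.sinh ξ ^ 3 ≤ Real.sinh ξ := by
      have : Real.sinh ξ ^ 3 = Real.sinh ξ ^ 2 * Real.sinh ξ := by ring
      rw [this]
      nlinarith
    linarith
  have u2 : ξ2 ≤ 32 * ξ := by
    rw [← Real.sinh_le_sinh, s2]
    have := sinh_32 hξ0.le
    linarith
  have l3 : ξ ≤ ξ3 := by
    rw [← Real.sinh_le_sinh, s3]
    linarith
  have u3 : ξ3 ≤ 32 * ξ := by
    rw [← Real.sinh_le_sinh, s3]
    exact sinh_32 hξ0.le
  have q1 := hH ξ hξ0 (by linarith)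
  have q2 := hH ξ2 (by linarith) (by linarith)
  have q3 := hH ξ3 (by linarith) (by linarith)
  rw [s2, show 4 * (4 * Real.sinh ξ) ^ 2 = 16 * ρ by rw [hρ]; ring] at q2
  rw [s3, show 4 * (32 * Real.sinh ξ) ^ 2 = 1024 * ρ by rw [hρ]; ring] at q3
  rw [← hρ] at q1
  have x20 : 0 < ξ2 := by linarith
  have x30 : 0 < ξ3 := by linarith
  have p1 : 0 < P.eval ρ := lt_of_lt_of_le (by positivity) q1.1
  have p2 : 0 < P.eval (16 * ρ) := lt_of_lt_of_le (by positivity) q2.1
  have p3 : 0 < P.eval (1024 * ρ) := lt_of_lt_of_le (by positivity) q3.1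
  have hkey := key P hP0 hρ0 heps hρe hreal p1 p2 p3
  set N := Multiset.card ((P.map Complex.ofRealHom).roots.filter fun z => ‖z‖ ≤ 1024 * ρ) with hN
  have hdegR : 2 * (P.natDegree : ℝ) ≤ L := by exact_mod_cast hdeg
  have hD0 : (0 : ℝ) ≤ P.natDegree := by positivity
  have hDρ : (P.natDegree : ℝ) * (1024 * ρ) ≤ 8192 * (M ^ 2 * (l ^ 2 / L)) := by
    rw [← hξ2']
    calc (P.natDegree : ℝ) * (1024 * ρ) ≤ (L / 2) * (1024 * (16 * ξ ^ 2)) :=
          mul_le_mul (by linarith) (by linarith) (by positivity) (by positivity)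
      _ = 8192 * (ξ ^ 2 * L) := by ring
  have hDη : (P.natDegree : ℝ) * (1024 * ρ / eps) ≤ 1 := by
    rw [← mul_div_assoc, div_le_one heps]
    have h1 : M ^ 2 * (l ^ 2 / L) ≤ M ^ 2 * η := mul_le_mul_of_nonneg_left hl2 (by positivity)
    have h2 : 0 ≤ M ^ 2 * η := by positivity
    linarith
  -- logarithms
  have lo2 : Real.log c + a * Real.log ξ2 + L * ξ2 ≤ Real.log (P.eval (16 * ρ)) := by
    have := Real.log_le_log (by positivity) q2.1
    rw [Real.log_mul (by positivity) (Real.exp_pos _).ne', Real.log_mul hc.ne' (by positivity),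
      Real.log_pow, Real.log_exp] at this
    exact this
  have up1 : a * Real.log ξ + Real.log (P.eval ρ) ≤ Real.log Cc + L * ξ := by
    have := Real.log_le_log (by positivity) q1.2
    rw [Real.log_mul (by positivity) p1.ne', Real.log_mul hC.ne' (Real.exp_pos _).ne',
      Real.log_pow, Real.log_exp] at this
    exact this
  have up3 : a * Real.log ξ3 + Real.log (P.eval (1024 * ρ)) ≤ Real.log Cc + L * ξ3 := by
    have := Real.log_le_log (by positivity) q3.2
    rw [Real.log_mul (by positivity) p3.ne', Real.log_mul hC.ne' (Real.exp_pos _).ne',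
      Real.log_pow, Real.log_exp] at this
    exact this
  have g2 : Real.log ξ ≤ Real.log ξ2 := Real.log_le_log hξ0 (by linarith)
  have g3 : Real.log ξ ≤ Real.log ξ3 := Real.log_le_log hξ0 l3
  have g1 : -l ≤ Real.log ξ := by
    rw [hξ, Real.log_div (by positivity) hLpos.ne']
    have : 0 ≤ Real.log (M * l) := Real.log_nonneg (by nlinarith)
    linarith
  have log16 : Real.log 16 ≤ 3 := by
    have h1 : Real.log 16 = 4 * Real.log 2 := by
      rw [show (16 : ℝ) = 2 ^ (4 : ℕ) by norm_num, Real.log_pow]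
      norm_num
    rw [h1]
    linarith [Real.log_two_lt_d9]
  have f1 : (a : ℝ) * Real.log ξ ≤ a * Real.log ξ2 := mul_le_mul_of_nonneg_left g2 a0
  have f2 : (a : ℝ) * Real.log ξ ≤ a * Real.log ξ3 := mul_le_mul_of_nonneg_left g3 a0
  have f3 : -((a : ℝ) * l) ≤ a * Real.log ξ := by
    have := mul_le_mul_of_nonneg_left g1 a0
    linarith
  have f4 : (L : ℝ) * (3 * ξ) ≤ L * ξ2 := mul_le_mul_of_nonneg_left l2 hLpos.le
  have f5 : (L : ℝ) * ξ3 ≤ L * (32 * ξ) := mul_le_mul_of_nonneg_left u3 hLpos.le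
  have f6 : (L : ℝ) * ξ = M * l := by
    rw [hξ]
    field_simp
  have f7 : 0 ≤ (a : ℝ) * l := by positivity
  have hN3 : (N : ℝ) * Real.log 16 ≤ N * 3 := mul_le_mul_of_nonneg_left log16 (by positivity)
  have i1 := le_abs_self (Real.log Cc)
  have i2 := neg_abs_le (Real.log c)
  have i3 : M * l = 3 * (a * l) + 6 * (C2 * l) + l := by rw [hM]; ring
  have hNbig : 2 * (C2 * l) + 2 ≤ N := by
    have j1 : (L : ℝ) * (3 * ξ) = 3 * (M * l) := by rw [← f6]; ring
    have j2 : (L : ℝ) * (32 * ξ) = 32 * (M * l) := by rw [← f6]; ring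
    rw [j1] at f4
    rw [j2] at f5
    rw [f6] at up1
    have j3 := abs_nonneg (Real.log Cc)
    linarith
  -- conclusion
  set K := ⌊C2 * l⌋₊ with hK
  have hKle : (K : ℝ) ≤ C2 * l := Nat.floor_le (by positivity)
  have hkK : k ≤ K := Nat.le_floor hk
  refine low P P.natDegree K eps (1024 * ρ) (by positivity) le_rfl (by linarith) hreal ?_
    (by linarith) ?_ k hk1 hkK
  · have : ((2 * (K + 1) : ℕ) : ℝ) ≤ N := by
      push_cast
      linarith
    exact_mod_cast this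
  · have h1 : 8 * ((K : ℝ) + 1) * P.natDegree * (1024 * ρ) =
        8 * ((K : ℝ) + 1) * ((P.natDegree : ℝ) * (1024 * ρ)) := by ring
    rw [h1]
    have h2 : (K : ℝ) + 1 ≤ (C2 + 1) * l := by linarith
    calc 8 * ((K : ℝ) + 1) * ((P.natDegree : ℝ) * (1024 * ρ))
        ≤ 8 * ((C2 + 1) * l) * (8192 * (M ^ 2 * (l ^ 2 / L))) :=
          mul_le_mul (by linarith) hDρ (by positivity) (by positivity)
      _ = 65536 * (C2 + 1) * M ^ 2 * (l ^ 3 / L) := by ring
      _ ≤ 65536 * (C2 + 1) * M ^ 2 * η := mul_le_mul_of_nonneg_left c2.le (by positivity)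
      _ ≤ eps := b4

end Pool.Agent.Helper49.EV
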