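import Pool.Agent.Helper49.ZB.Newton

/-!
# Log-concavity of the low coefficients of a polynomial with many small real roots
-/

set_option autoImplicit false

namespace Pool.Agent.Helper49.EV

open Polynomial Pool.Agent.Helper49.ZB

/-! ### Elementary symmetric functions -/

/-- the product of `1 + a X` -/
theorem coeff_prod {R : Type*} [CommRing R] (s : Multiset R) (k : ℕ) :
    ((s.map fun a => (1 + C a * X : R[X])).prod).coeff k = s.esymm k := by
  induction s using Multiset.induction_on generalizing k with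
  | empty =>
    cases k with
    | zero => simp [Multiset.esymm]
    | succ k =>
      simp [Multiset.esymm, Multiset.powersetCard_zero_right, Polynomial.coeff_one]
  | cons a s ih =>
    rw [Multiset.map_cons, Multiset.prod_cons, add_mul, one_mul, Polynomial.coeff_add, ih,
      mul_assoc, Polynomial.coeff_C_mul]
    cases k with
    | zero => simp [esymm_zero']
    | succ k => rw [Polynomial.coeff_X_mul, ih, esymm_cons]

theorem esymm_add {R : Type*} [CommRing R] (s t : Multiset R) (k : ℕ) :
    (s + t).esymm k = ∑ j ∈ Finset.range (k + 1), s.esymm (k - j) * t.esymm j := by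
  rw [← coeff_prod, Multiset.map_add, Multiset.prod_add, Polynomial.coeff_mul,
    Finset.Nat.sum_antidiagonal_eq_sum_range_succ_mk, ← Finset.sum_range_reflect]
  refine Finset.sum_congr rfl fun j hj => ?_
  rw [Finset.mem_range] at hj
  rw [coeff_prod, coeff_prod, show k + 1 - 1 - j = k - j by omega,
    show k - (k - j) = j by omega]

theorem esymm_nonneg (u : Multiset ℝ) (h : ∀ x ∈ u, 0 < x) (k : ℕ) : 0 ≤ u.esymm k := by
  unfold Multiset.esymm
  apply Multiset.sum_nonneg
  intro y hy
  rw [Multiset.mem_map] at hy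
  obtain ⟨t, ht, rfl⟩ := hy
  rw [Multiset.mem_powersetCard] at ht
  exact Multiset.prod_nonneg fun x hx => (h x (Multiset.mem_of_le ht.1 hx)).le

theorem esymm_big {R : Type*} [CommRing R] (u : Multiset R) (k : ℕ) (h : Multiset.card u < k) :
    u.esymm k = 0 := by
  unfold Multiset.esymm
  rw [Multiset.powersetCard_eq_empty k h]
  simp

theorem esymm_pos (u : Multiset ℝ) (h : ∀ x ∈ u, 0 < x) (k : ℕ) (hk : k ≤ Multiset.card u) :
    0 < u.esymm k := by
  induction u using Multiset.induction_on generalizing k with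
  | empty =>
    simp only [Multiset.card_zero, Nat.le_zero] at hk
    subst hk
    rw [esymm_zero']
    exact one_pos
  | cons x u ih =>
    have hx : 0 < x := h x (Multiset.mem_cons_self _ _)
    have hu : ∀ y ∈ u, 0 < y := fun y hy => h y (Multiset.mem_cons_of_mem hy)
    cases k with
    | zero => rw [esymm_zero']; exact one_pos
    | succ k =>
      rw [esymm_cons]
      rw [Multiset.card_cons] at hk
      exact add_pos_of_nonneg_of_pos (esymm_nonneg u hu _) (mul_pos hx (ih hu k (by omega)))

/-- Newton's inequality in the form which does not see the number of variables -/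
theorem newton_ineq (u : Multiset ℝ) (h : ∀ x ∈ u, 0 < x) (k : ℕ) :
    ((k : ℝ) + 2) * (u.esymm (k + 2) * u.esymm k) ≤ ((k : ℝ) + 1) * u.esymm (k + 1) ^ 2 := by
  induction u using Multiset.induction_on generalizing k with
  | empty =>
    rw [esymm_big _ (k + 2) (by simp), zero_mul, mul_zero]
    positivity
  | cons x u ih =>
    have hx : 0 < x := h x (Multiset.mem_cons_self _ _)
    have hu : ∀ y ∈ u, 0 < y := fun y hy => h y (Multiset.mem_cons_of_mem hy)
    have I := ih hu
    rw [esymm_cons, esymm_cons]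
    cases k with
    | zero =>
      rw [esymm_zero', esymm_zero']
      have h1 := I 0
      rw [esymm_zero'] at h1
      push_cast at h1 ⊢
      norm_num at h1 ⊢
      nlinarith [sq_nonneg x, esymm_nonneg u hu 1]
    | succ k =>
      rw [esymm_cons]
      have h1 := I (k + 1)
      have h2 := I k
      set a := u.esymm (k + 1 + 2) with ha
      set b := u.esymm (k + 2) with hb
      set c := u.esymm (k + 1) with hc
      set d := u.esymm k with hd
      have a0 : 0 ≤ a := esymm_nonneg u hu _
      have b0 : 0 ≤ b := esymm_nonneg u hu _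
      have c0 : 0 ≤ c := esymm_nonneg u hu _
      have d0 : 0 ≤ d := esymm_nonneg u hu _
      have kk : (0 : ℝ) ≤ k := by positivity
      change ((((k + 1 : ℕ) : ℝ)) + 2) * ((a + x * b) * (c + x * d)) ≤
        (((k + 1 : ℕ) : ℝ) + 1) * (b + x * c) ^ 2
      change (((k + 1 : ℕ) : ℝ) + 2) * (a * c) ≤ (((k + 1 : ℕ) : ℝ) + 1) * b ^ 2 at h1
      push_cast at h1 ⊢
      -- the mixed term
      have h3 : ((k : ℝ) + 3) * (a * d) ≤ ((k : ℝ) + 1) * (b * c) := by
        rcases Nat.lt_or_ge (Multiset.card u) (k + 2) with hcard | hcard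
        · have e1 : a = 0 := esymm_big u _ (by omega)
          have e2 : b = 0 := esymm_big u _ hcard
          rw [e1, e2]
          simp
        · have bp : 0 < b := esymm_pos u hu _ hcard
          have cp : 0 < c := esymm_pos u hu _ (by omega)
          have h4 : (((k : ℝ) + 3) * (a * c)) * (((k : ℝ) + 2) * (b * d)) ≤
              (((k : ℝ) + 2) * b ^ 2) * (((k : ℝ) + 1) * c ^ 2) := by
            apply mul_le_mul _ h2 (by positivity) (by positivity)
            have : ((k : ℝ) + 1 + 2) = (k : ℝ) + 3 := by ring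
            rw [this] at h1
            have : ((k : ℝ) + 1 + 1) = (k : ℝ) + 2 := by ring
            rw [this] at h1
            exact h1
          have h5 : (b * c * ((k : ℝ) + 2)) * (((k : ℝ) + 3) * (a * d)) ≤
              (b * c * ((k : ℝ) + 2)) * (((k : ℝ) + 1) * (b * c)) := by
            calc _ = (((k : ℝ) + 3) * (a * c)) * (((k : ℝ) + 2) * (b * d)) := by ring
              _ ≤ _ := h4
              _ = _ := by ring
          exact le_of_mul_le_mul_left h5 (by positivity)
      -- the quadratic term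
      have h6 : ((k : ℝ) + 3) * (b * d) ≤ ((k : ℝ) + 2) * c ^ 2 := by
        have h7 : ((k : ℝ) + 2) * (((k : ℝ) + 3) * (b * d)) ≤
            ((k : ℝ) + 2) * (((k : ℝ) + 2) * c ^ 2) := by
          calc ((k : ℝ) + 2) * (((k : ℝ) + 3) * (b * d))
              = ((k : ℝ) + 3) * (((k : ℝ) + 2) * (b * d)) := by ring
            _ ≤ ((k : ℝ) + 3) * (((k : ℝ) + 1) * c ^ 2) :=
                mul_le_mul_of_nonneg_left h2 (by positivity)
            _ ≤ ((k : ℝ) + 2) * (((k : ℝ) + 2) * c ^ 2) := by
                nlinarith [sq_nonneg c]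
        exact le_of_mul_le_mul_left h7 (by positivity)
      have h8 : x * (((k : ℝ) + 3) * (a * d)) ≤ x * (((k : ℝ) + 1) * (b * c)) :=
        mul_le_mul_of_nonneg_left h3 hx.le
      have h9 : x ^ 2 * (((k : ℝ) + 3) * (b * d)) ≤ x ^ 2 * (((k : ℝ) + 2) * c ^ 2) :=
        mul_le_mul_of_nonneg_left h6 (by positivity)
      nlinarith [h1, h8, h9]

/-- many large entries: the elementary symmetric functions grow fast -/
theorem esymm_growth (u : Multiset ℝ) (h : ∀ x ∈ u, 0 < x) (a : ℝ) (ha : 0 < a) :
    ∀ N k : ℕ, N ≤ Multiset.card (u.filter fun x => a ≤ x) →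
      ((N : ℝ) - k) * (a * u.esymm k) ≤ ((k : ℝ) + 1) * u.esymm (k + 1) := by
  induction u using Multiset.induction_on with
  | empty =>
    intro N k hN
    simp only [Multiset.filter_zero, Multiset.card_zero, Nat.le_zero] at hN
    subst hN
    rw [esymm_big _ (k + 1) (by simp)]
    have h1 : 0 ≤ (0 : Multiset ℝ).esymm k := esymm_nonneg _ (by simp) _
    have h2 : (0 : ℝ) ≤ (k : ℝ) * (a * (0 : Multiset ℝ).esymm k) := by positivity
    push_cast
    linarith
  | cons x u ih =>
    intro N k hN
    have hx : 0 < x := h x (Multiset.mem_cons_self _ _)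
    have hu : ∀ y ∈ u, 0 < y := fun y hy => h y (Multiset.mem_cons_of_mem hy)
    have I := ih hu
    have e0 : ∀ j, 0 ≤ u.esymm j := esymm_nonneg u hu
    by_cases hax : a ≤ x
    · rw [Multiset.filter_cons_of_pos _ hax, Multiset.card_cons] at hN
      rcases Nat.eq_zero_or_pos N with rfl | hNpos
      · have h1 : 0 ≤ (x ::ₘ u).esymm k := esymm_nonneg _ h _
        have h2 : 0 ≤ (x ::ₘ u).esymm (k + 1) := esymm_nonneg _ h _
        have h3 : (0 : ℝ) ≤ (k : ℝ) * (a * (x ::ₘ u).esymm k) := by positivity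
        have h4 : (0 : ℝ) ≤ ((k : ℝ) + 1) * (x ::ₘ u).esymm (k + 1) := by positivity
        push_cast
        linarith
      · obtain ⟨M, rfl⟩ : ∃ M, N = M + 1 := ⟨N - 1, by omega⟩
        have hM := Nat.le_of_succ_le_succ hN
        rw [esymm_cons]
        cases k with
        | zero =>
          have h1 := I M 0 hM
          rw [esymm_zero'] at h1 ⊢
          rw [esymm_zero']
          push_cast at h1 ⊢
          linarith
        | succ k =>
          rw [esymm_cons]
          have h1 := I M (k + 1) hM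
          have h2 := I M k hM
          have h3 := mul_le_mul_of_nonneg_left h2 hx.le
          have h4 : a * u.esymm (k + 1) ≤ x * u.esymm (k + 1) :=
            mul_le_mul_of_nonneg_right hax (e0 _)
          push_cast at h1 h3 ⊢
          nlinarith [h1, h3, h4]
    · rw [Multiset.filter_cons_of_neg _ hax] at hN
      rw [esymm_cons]
      cases k with
      | zero =>
        have h1 := I N 0 hN
        rw [esymm_zero'] at h1 ⊢
        rw [esymm_zero']
        push_cast at h1 ⊢
        linarith
      | succ k =>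
        rw [esymm_cons]
        have h1 := I N (k + 1) hN
        have h2 := I N k hN
        have h3 := mul_le_mul_of_nonneg_left h2 hx.le
        have h4 : 0 ≤ x * (a * u.esymm k) := by
          have := e0 k
          positivity
        have h5 : 0 ≤ x * u.esymm (k + 1) := mul_nonneg hx.le (e0 _)
        push_cast at h1 h3 ⊢
        nlinarith [h1, h3, h4, h5]

/-- elementary symmetric functions of small complex numbers -/
theorem norm_esymm_le (v : Multiset ℂ) (b : ℝ) (hb : 0 ≤ b) (h : ∀ x ∈ v, ‖x‖ ≤ b) (k : ℕ) :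
    ‖v.esymm k‖ ≤ ((Multiset.card v).choose k : ℝ) * b ^ k := by
  induction v using Multiset.induction_on generalizing k with
  | empty =>
    cases k with
    | zero => simp [Multiset.esymm]
    | succ k =>
      rw [esymm_big _ (k + 1) (by simp)]
      simp
  | cons x v ih =>
    have hx : ‖x‖ ≤ b := h x (Multiset.mem_cons_self _ _)
    have hv : ∀ y ∈ v, ‖y‖ ≤ b := fun y hy => h y (Multiset.mem_cons_of_mem hy)
    cases k with
    | zero => simp [Multiset.esymm]
    | succ k =>
      rw [esymm_cons, Multiset.card_cons, Nat.choose_succ_succ]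
      refine (norm_add_le _ _).trans ?_
      rw [norm_mul]
      have h1 := ih hv (k + 1)
      have h2 := ih hv k
      have h3 : ‖x‖ * ‖v.esymm k‖ ≤ b * (((Multiset.card v).choose k : ℝ) * b ^ k) :=
        mul_le_mul hx h2 (norm_nonneg _) hb
      push_cast
      have h4 : b * (((Multiset.card v).choose k : ℝ) * b ^ k) =
        ((Multiset.card v).choose k : ℝ) * b ^ (k + 1) := by ring
      linarith

/-! ### The polynomial -/

/-- a polynomial with nonzero constant term, in terms of the negative inverses of its roots -/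
theorem coeff_eq (P : ℂ[X]) (h0 : P.coeff 0 ≠ 0) (k : ℕ) :
    P.coeff k = P.coeff 0 * (P.roots.map fun z => -z⁻¹).esymm k := by
  have hP : P ≠ 0 := by
    rintro rfl
    simp at h0
  have hz : ∀ z ∈ P.roots, z ≠ 0 := by
    rintro z hz rfl
    have := (Polynomial.mem_roots hP).1 hz
    rw [Polynomial.IsRoot, ← Polynomial.coeff_zero_eq_eval_zero] at this
    exact h0 this
  have h1 : P = C P.leadingCoeff * (P.roots.map fun a => (X - C a)).prod :=
    (IsAlgClosed.splits P).eq_prod_roots
  have h2 : ∀ s : Multiset ℂ, (∀ z ∈ s, z ≠ 0) → ∃ c : ℂ,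
      (s.map fun a => (X - C a)).prod = C c * (s.map fun a => (1 + C (-a⁻¹) * X : ℂ[X])).prod := by
    intro s
    induction s using Multiset.induction_on with
    | empty => intro _; exact ⟨1, by simp⟩
    | cons a s ih =>
      intro h
      obtain ⟨c, hc⟩ := ih fun z hz => h z (Multiset.mem_cons_of_mem hz)
      have ha := h a (Multiset.mem_cons_self _ _)
      refine ⟨-a * c, ?_⟩
      rw [Multiset.map_cons, Multiset.prod_cons, Multiset.map_cons, Multiset.prod_cons, hc]
      have h3 : (X - C a : ℂ[X]) = C (-a) * (1 + C (-a⁻¹) * X) := by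
        rw [mul_add, mul_one, ← mul_assoc, ← C_mul, neg_mul_neg, mul_inv_cancel₀ ha, C_1, one_mul,
          C_neg]
        ring
      rw [h3, C_mul]
      ring
  obtain ⟨c, hc⟩ := h2 P.roots hz
  have h4 : P = C (P.leadingCoeff * c) *
      ((P.roots.map fun z => -z⁻¹).map fun a => (1 + C a * X : ℂ[X])).prod := by
    rw [Multiset.map_map]
    calc P = C P.leadingCoeff * (P.roots.map fun a => (X - C a)).prod := h1
      _ = _ := by
        rw [hc, ← mul_assoc, ← C_mul]
        rfl
  have h5 : ∀ j, P.coeff j = (P.leadingCoeff * c) * (P.roots.map fun z => -z⁻¹).esymm j := by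
    intro j
    have := congrArg (fun Q : ℂ[X] => Q.coeff j) h4
    simp only [Polynomial.coeff_C_mul, coeff_prod] at this
    exact this
  have h6 := h5 0
  rw [esymm_zero', mul_one] at h6
  rw [h5 k, h6]

theorem esymm_ofReal (u : Multiset ℝ) (k : ℕ) :
    (u.map (fun x : ℝ => (x : ℂ))).esymm k = ((u.esymm k : ℝ) : ℂ) := by
  induction u using Multiset.induction_on generalizing k with
  | empty =>
    cases k with
    | zero => simp [Multiset.esymm]
    | succ k =>
      have a : (0 : Multiset ℝ).esymm (k + 1) = 0 := esymm_big _ _ (by simp)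
      have b : (0 : Multiset ℂ).esymm (k + 1) = 0 := esymm_big _ _ (by simp)
      rw [Multiset.map_zero, a, b]
      simp
  | cons x u ih =>
    cases k with
    | zero => simp [esymm_zero']
    | succ k =>
      rw [Multiset.map_cons, esymm_cons, esymm_cons, ih, ih]
      push_cast
      ring

theorem geom_small {q : ℝ} (h0 : 0 ≤ q) (h1 : q ≤ 1 / 8) (k : ℕ) :
    ∑ j ∈ Finset.range k, q ^ (j + 1) ≤ 8 / 7 * q := by
  have h2 : ∀ k : ℕ, ∑ j ∈ Finset.range k, q ^ (j + 1) ≤ 8 / 7 * q - 8 / 7 * q ^ (k + 1) := by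
    intro k
    induction k with
    | zero => simp
    | succ k ih =>
      rw [Finset.sum_range_succ]
      have h3 : q ^ (k + 1 + 1) = q * q ^ (k + 1) := by ring
      have h4 : 0 ≤ q ^ (k + 1) := by positivity
      rw [h3]
      nlinarith [mul_nonneg h4 (sub_nonneg.2 h1)]
  have := h2 k
  have h5 : 0 ≤ q ^ (k + 1) := by positivity
  linarith

/-- **Low coefficients.** -/
theorem low (P : ℝ[X]) (D K : ℕ) (eps sig : ℝ) (hsig : 0 < sig)
    (hdeg : P.natDegree ≤ D) (hP0 : 0 < P.coeff 0)
    (hreal : ∀ z ∈ (P.map Complex.ofRealHom).roots, ‖z‖ < eps → z.im = 0 ∧ z.re < 0)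
    (hmany : 2 * (K + 1) ≤
      Multiset.card ((P.map Complex.ofRealHom).roots.filter fun z => ‖z‖ ≤ sig))
    (hse : sig < eps) (hsmall : 8 * ((K : ℝ) + 1) * D * sig ≤ eps) (k : ℕ) (hk1 : 1 ≤ k)
    (hkK : k ≤ K) :
    0 < P.coeff k ∧ P.coeff (k - 1) * P.coeff (k + 1) < P.coeff k ^ 2 := by
  classical
  have heps : 0 < eps := hsig.trans hse
  set Q : ℂ[X] := P.map Complex.ofRealHom with hQ
  have hQc : ∀ j, Q.coeff j = ((P.coeff j : ℝ) : ℂ) := fun j => by
    rw [hQ, Polynomial.coeff_map]
    rfl
  have hQ0 : Q.coeff 0 ≠ 0 := by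
    rw [hQc]
    exact_mod_cast hP0.ne'
  have hQne : Q ≠ 0 := by
    intro h
    rw [h] at hQ0
    simp at hQ0
  have hz0 : ∀ z ∈ Q.roots, z ≠ 0 := by
    rintro z hz rfl
    have := (Polynomial.mem_roots hQne).1 hz
    rw [Polynomial.IsRoot, ← Polynomial.coeff_zero_eq_eval_zero] at this
    exact hQ0 this
  -- the small roots
  set R1 := Q.roots.filter fun z => ‖z‖ < eps with hR1
  set R2 := Q.roots.filter fun z => ¬ ‖z‖ < eps with hR2
  have hsplit : Q.roots = R1 + R2 := (Multiset.filter_add_not _ _).symm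
  set u : Multiset ℝ := R1.map fun z => -z.re⁻¹ with hu
  set v : Multiset ℂ := R2.map fun z => -z⁻¹ with hv
  have hR1r : ∀ z ∈ R1, z.im = 0 ∧ z.re < 0 := by
    intro z hz
    rw [hR1, Multiset.mem_filter] at hz
    exact hreal z hz.1 hz.2
  have hmap : R1.map (fun z => -z⁻¹) = u.map (fun x : ℝ => (x : ℂ)) := by
    rw [hu, Multiset.map_map]
    refine Multiset.map_congr rfl fun z hz => ?_
    obtain ⟨h1, h2⟩ := hR1r z hz
    have h3 : z = (z.re : ℂ) := by
      apply Complex.ext
      · simp
      · simp [h1]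
    simp only [Function.comp_apply]
    rw [Complex.ofReal_neg, Complex.ofReal_inv, ← h3]
  have hupos : ∀ x ∈ u, 0 < x := by
    intro x hx
    rw [hu, Multiset.mem_map] at hx
    obtain ⟨z, hz, rfl⟩ := hx
    have := (hR1r z hz).2
    have h1 : z.re⁻¹ < 0 := inv_lt_zero.2 this
    linarith
  have hvb : ∀ x ∈ v, ‖x‖ ≤ eps⁻¹ := by
    intro x hx
    rw [hv, Multiset.mem_map] at hx
    obtain ⟨z, hz, rfl⟩ := hx
    rw [hR2, Multiset.mem_filter] at hz
    rw [norm_neg, norm_inv]
    exact inv_anti₀ heps (not_lt.1 hz.2)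
  have hvcard : Multiset.card v ≤ D := by
    rw [hv, Multiset.card_map]
    have h1 : Multiset.card R2 ≤ Multiset.card Q.roots :=
      Multiset.card_le_card (Multiset.filter_le _ _)
    have h2 : Multiset.card Q.roots ≤ Q.natDegree := Polynomial.card_roots' _
    have h3 : Q.natDegree ≤ P.natDegree := Polynomial.natDegree_map_le
    omega
  have hucount : 2 * (K + 1) ≤ Multiset.card (u.filter fun x => sig⁻¹ ≤ x) := by
    refine hmany.trans ?_
    rw [hsplit, Multiset.filter_add, Multiset.card_add]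
    have h1 : R2.filter (fun z => ‖z‖ ≤ sig) = 0 := by
      rw [Multiset.filter_eq_nil]
      intro z hz h
      rw [hR2, Multiset.mem_filter] at hz
      exact hz.2 (lt_of_le_of_lt h hse)
    rw [h1, Multiset.card_zero, add_zero, hu, Multiset.filter_map, Multiset.card_map]
    apply Multiset.card_le_card
    have h2 : R1.filter (fun z => ‖z‖ ≤ sig) =
        (R1.filter (fun z => ‖z‖ ≤ sig)).filter ((fun x => sig⁻¹ ≤ x) ∘ fun z : ℂ => -z.re⁻¹) := by
      symm
      rw [Multiset.filter_eq_self]
      intro z hz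
      rw [Multiset.mem_filter] at hz
      obtain ⟨h3, h4⟩ := hR1r z hz.1
      simp only [Function.comp_apply]
      have h5 : ‖z‖ = -z.re := by
        have h6 : z = (z.re : ℂ) := by
          apply Complex.ext
          · simp
          · simp [h3]
        rw [h6, Complex.norm_real, Real.norm_eq_abs, abs_of_neg h4]
        simp
      have h7 : -z.re⁻¹ = (-z.re)⁻¹ := by
        rw [inv_neg]
      rw [h7]
      exact inv_anti₀ (by linarith) (h5 ▸ hz.2)
    rw [h2]
    exact Multiset.filter_le_filter _ (Multiset.filter_le _ _)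
  -- the elementary symmetric functions of the small roots
  have hgrow : ∀ j, j ≤ K → u.esymm j ≤ sig * u.esymm (j + 1) := by
    intro j hj
    have h1 := esymm_growth u hupos sig⁻¹ (inv_pos.2 hsig) (2 * (K + 1)) j hucount
    have h2 : (j : ℝ) ≤ K := by exact_mod_cast hj
    have h3 := esymm_nonneg u hupos j
    have h4 := esymm_nonneg u hupos (j + 1)
    push_cast at h1
    have h5 : ((j : ℝ) + 1) * (sig⁻¹ * u.esymm j) ≤ ((j : ℝ) + 1) * u.esymm (j + 1) := by
      refine le_trans (mul_le_mul_of_nonneg_right (by linarith) (by positivity)) h1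
    have h6 := le_of_mul_le_mul_left h5 (by positivity)
    rw [inv_mul_le_iff₀ hsig] at h6
    exact h6
  have hgrow2 : ∀ j m, m + j ≤ K + 1 → u.esymm m ≤ sig ^ j * u.esymm (m + j) := by
    intro j
    induction j with
    | zero => intro m _; simp
    | succ j ih =>
      intro m hm
      have h1 := ih m (by omega)
      have h2 := hgrow (m + j) (by omega)
      have h3 := mul_le_mul_of_nonneg_left h2 (show 0 ≤ sig ^ j by positivity)
      calc u.esymm m ≤ sig ^ j * u.esymm (m + j) := h1
        _ ≤ sig ^ j * (sig * u.esymm (m + j + 1)) := h3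
        _ = sig ^ (j + 1) * u.esymm (m + (j + 1)) := by rw [← add_assoc]; ring
  have hucard : 2 * (K + 1) ≤ Multiset.card u :=
    hucount.trans (Multiset.card_le_card (Multiset.filter_le _ _))
  have hup : ∀ j, j ≤ K + 1 → 0 < u.esymm j := fun j hj => esymm_pos u hupos j (by omega)
  -- the comparison
  set q : ℝ := D * sig / eps with hq
  have hq0 : 0 ≤ q := by positivity
  have hqs : q ≤ 1 / (8 * ((K : ℝ) + 1)) := by
    rw [hq, div_le_div_iff₀ heps (by positivity)]
    linarith
  have hK0 : (0 : ℝ) ≤ K := by positivity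
  have hq8 : q ≤ 1 / 8 := by
    refine hqs.trans ?_
    rw [div_le_div_iff₀ (by positivity) (by norm_num)]
    linarith
  have hcmp : ∀ j, j ≤ K + 1 → |P.coeff j / P.coeff 0 - u.esymm j| ≤
      1 / (7 * ((K : ℝ) + 1)) * u.esymm j := by
    intro j hj
    have h1 := coeff_eq Q hQ0 j
    rw [hsplit, Multiset.map_add, hmap, esymm_add, Finset.sum_range_succ', esymm_zero', mul_one,
      Nat.sub_zero] at h1
    rw [esymm_ofReal] at h1
    have h3 : ((P.coeff j / P.coeff 0 - u.esymm j : ℝ) : ℂ) =
        ∑ i ∈ Finset.range j, (u.map fun x : ℝ => (x : ℂ)).esymm (j - (i + 1)) *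
          (R2.map fun z => -z⁻¹).esymm (i + 1) := by
      rw [hQc, hQc] at h1
      have h4 : ((P.coeff 0 : ℝ) : ℂ) ≠ 0 := by exact_mod_cast hP0.ne'
      push_cast
      rw [h1, mul_div_cancel_left₀ _ h4]
      ring
    rw [← Real.norm_eq_abs, ← Complex.norm_real, h3]
    refine (norm_sum_le _ _).trans ?_
    have h5 : ∀ i ∈ Finset.range j, ‖(u.map fun x : ℝ => (x : ℂ)).esymm (j - (i + 1)) *
        (R2.map fun z => -z⁻¹).esymm (i + 1)‖ ≤ q ^ (i + 1) * u.esymm j := by
      intro i hi
      rw [Finset.mem_range] at hi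
      rw [norm_mul, esymm_ofReal, Complex.norm_real, Real.norm_eq_abs,
        abs_of_nonneg (esymm_nonneg u hupos _)]
      have h6 := hgrow2 (i + 1) (j - (i + 1)) (by omega)
      rw [show j - (i + 1) + (i + 1) = j by omega] at h6
      have h7 := norm_esymm_le v eps⁻¹ (inv_nonneg.2 heps.le) hvb (i + 1)
      have h8 : ((Multiset.card v).choose (i + 1) : ℝ) ≤ (D : ℝ) ^ (i + 1) := by
        have h9 : (Multiset.card v).choose (i + 1) ≤ D ^ (i + 1) :=
          (Nat.choose_le_pow _ _).trans (Nat.pow_le_pow_left hvcard _)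
        exact_mod_cast h9
      have h10 : ‖v.esymm (i + 1)‖ ≤ (D : ℝ) ^ (i + 1) * eps⁻¹ ^ (i + 1) :=
        h7.trans (mul_le_mul_of_nonneg_right h8 (by positivity))
      calc u.esymm (j - (i + 1)) * ‖v.esymm (i + 1)‖
          ≤ (sig ^ (i + 1) * u.esymm j) * ((D : ℝ) ^ (i + 1) * eps⁻¹ ^ (i + 1)) :=
            mul_le_mul h6 h10 (norm_nonneg _)
              (mul_nonneg (by positivity) (esymm_nonneg u hupos _))
        _ = q ^ (i + 1) * u.esymm j := by
            rw [hq, div_eq_mul_inv, mul_pow, mul_pow]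
            ring
    refine (Finset.sum_le_sum h5).trans ?_
    rw [← Finset.sum_mul]
    refine mul_le_mul_of_nonneg_right ?_ (esymm_nonneg u hupos _)
    refine (geom_small hq0 hq8 j).trans ?_
    calc 8 / 7 * q ≤ 8 / 7 * (1 / (8 * ((K : ℝ) + 1))) :=
          mul_le_mul_of_nonneg_left hqs (by norm_num)
      _ = 1 / (7 * ((K : ℝ) + 1)) := by field_simp
  -- conclusion
  obtain ⟨m, rfl⟩ : ∃ m, k = m + 1 := ⟨k - 1, by omega⟩
  rw [Nat.add_sub_cancel]
  set η : ℝ := 1 / (7 * ((K : ℝ) + 1)) with hη
  have hη0 : 0 < η := by positivity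
  have hη1 : η ≤ 1 / 7 := by
    rw [hη, div_le_div_iff₀ (by positivity) (by norm_num)]
    linarith
  have a0 := hup m (by omega)
  have a1 := hup (m + 1) (by omega)
  have a2 := hup (m + 1 + 1) (by omega)
  have c0 := abs_le.1 (hcmp m (by omega))
  have c1 := abs_le.1 (hcmp (m + 1) (by omega))
  have c2 := abs_le.1 (hcmp (m + 1 + 1) (by omega))
  set r0 : ℝ := P.coeff m / P.coeff 0 with hr0
  set r1 : ℝ := P.coeff (m + 1) / P.coeff 0 with hr1
  set r2 : ℝ := P.coeff (m + 1 + 1) / P.coeff 0 with hr2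
  set s0 := u.esymm m with hs0
  set s1 := u.esymm (m + 1) with hs1
  set s2 := u.esymm (m + 1 + 1) with hs2
  have hr1pos : (1 - η) * s1 ≤ r1 := by linarith [c1.1]
  have hr1p : 0 < r1 := lt_of_lt_of_le (mul_pos (by linarith) a1) hr1pos
  have hr0n : 0 < r0 := by
    have : (1 - η) * s0 ≤ r0 := by linarith [c0.1]
    exact lt_of_lt_of_le (mul_pos (by linarith) a0) this
  have hr2n : 0 < r2 := by
    have : (1 - η) * s2 ≤ r2 := by linarith [c2.1]
    exact lt_of_lt_of_le (mul_pos (by linarith) a2) this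
  have e0 : P.coeff m = r0 * P.coeff 0 := by rw [hr0]; field_simp
  have e1 : P.coeff (m + 1) = r1 * P.coeff 0 := by rw [hr1]; field_simp
  have e2 : P.coeff (m + 1 + 1) = r2 * P.coeff 0 := by rw [hr2]; field_simp
  refine ⟨by rw [e1]; positivity, ?_⟩
  rw [e0, e1, e2]
  have key : r0 * r2 < r1 ^ 2 := by
    have n1 := newton_ineq u hupos m
    change ((m : ℝ) + 2) * (s2 * s0) ≤ ((m : ℝ) + 1) * s1 ^ 2 at n1
    have b1 : r0 * r2 ≤ ((1 + η) * s0) * ((1 + η) * s2) :=
      mul_le_mul (by linarith [c0.2]) (by linarith [c2.2]) hr2n.le (by positivity)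
    have b2 : ((1 - η) * s1) ^ 2 ≤ r1 ^ 2 :=
      pow_le_pow_left₀ (mul_nonneg (by linarith) a1.le) hr1pos 2
    have b3 : (1 + η) ^ 2 * (((m : ℝ) + 2) * (s2 * s0)) ≤
        (1 + η) ^ 2 * (((m : ℝ) + 1) * s1 ^ 2) :=
      mul_le_mul_of_nonneg_left n1 (by positivity)
    have b4 : (m : ℝ) + 1 ≤ K := by exact_mod_cast hkK
    have b5 : (1 + η) ^ 2 * ((m : ℝ) + 1) < (1 - η) ^ 2 * ((m : ℝ) + 2) := by
      have b6 : η * (7 * ((m : ℝ) + 2)) ≤ 1 := by
        rw [hη, one_div, inv_mul_le_iff₀ (by positivity)]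
        linarith
      nlinarith [b6, hη0, sq_nonneg η]
    have b7 : ((m : ℝ) + 2) * (r0 * r2) < ((m : ℝ) + 2) * r1 ^ 2 := by
      calc ((m : ℝ) + 2) * (r0 * r2) ≤ ((m : ℝ) + 2) * (((1 + η) * s0) * ((1 + η) * s2)) :=
            mul_le_mul_of_nonneg_left b1 (by positivity)
        _ = (1 + η) ^ 2 * (((m : ℝ) + 2) * (s2 * s0)) := by ring
        _ ≤ (1 + η) ^ 2 * (((m : ℝ) + 1) * s1 ^ 2) := b3
        _ = ((1 + η) ^ 2 * ((m : ℝ) + 1)) * s1 ^ 2 := by ring
        _ < ((1 - η) ^ 2 * ((m : ℝ) + 2)) * s1 ^ 2 :=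
            mul_lt_mul_of_pos_right b5 (by positivity)
        _ = ((m : ℝ) + 2) * ((1 - η) * s1) ^ 2 := by ring
        _ ≤ ((m : ℝ) + 2) * r1 ^ 2 := mul_le_mul_of_nonneg_left b2 (by positivity)
    exact lt_of_mul_lt_mul_left b7 (by positivity)
  calc r0 * P.coeff 0 * (r2 * P.coeff 0) = (r0 * r2) * P.coeff 0 ^ 2 := by ring
    _ < r1 ^ 2 * P.coeff 0 ^ 2 := mul_lt_mul_of_pos_right key (by positivity)
    _ = (r1 * P.coeff 0) ^ 2 := by ring

end Pool.Agent.Helper49.EV
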