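import Pool.Agent.Helper49.EV.Top

/-!
# A lower bound of the second coefficient from one value
-/

set_option autoImplicit false

namespace Pool.Agent.Helper49.EV

open Polynomial Pool.Agent.Helper49.ZB

theorem norm_one_add_le (u : ℂ) : ‖1 + u‖ ≤ Real.exp (u.re + ‖u‖ ^ 2 / 2) := by
  have h1 : ‖1 + u‖ ^ 2 = 1 + 2 * u.re + ‖u‖ ^ 2 := by
    rw [← Complex.normSq_eq_norm_sq, ← Complex.normSq_eq_norm_sq, Complex.normSq_apply,
      Complex.normSq_apply]
    simp only [Complex.add_re, Complex.one_re, Complex.add_im, Complex.one_im]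
    ring
  have h2 : ‖1 + u‖ ^ 2 ≤ Real.exp (u.re + ‖u‖ ^ 2 / 2) ^ 2 := by
    rw [h1, ← Real.exp_nat_mul]
    have := Real.add_one_le_exp (((2 : ℕ) : ℝ) * (u.re + ‖u‖ ^ 2 / 2))
    push_cast at this ⊢
    linarith
  exact (pow_le_pow_iff_left₀ (norm_nonneg _) (Real.exp_pos _).le two_ne_zero).1 h2

/-- the second coefficient is large if some value is large -/
theorem second_ge (P : ℝ[X]) (ρ r : ℝ) (hr : 0 < r) (hl : 0 < P.leadingCoeff)
    (hroots : ∀ z ∈ (P.map Complex.ofRealHom).roots, ‖z‖ ≤ ρ) (hPr : 0 < P.eval r)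
    (hg : 1 ≤ P.natDegree) :
    r * Real.log (P.eval r / (P.leadingCoeff * r ^ P.natDegree)) -
      P.natDegree * ρ ^ 2 / (2 * r) ≤ P.coeff (P.natDegree - 1) / P.leadingCoeff := by
  set l := P.leadingCoeff with hl'
  set g := P.natDegree with hg'
  set Q : ℂ[X] := P.map Complex.ofRealHom with hQ
  have hinj : Function.Injective Complex.ofRealHom := Complex.ofReal_injective
  have hQdeg : Q.natDegree = g := Polynomial.natDegree_map_eq_of_injective hinj P
  have hQlead : Q.leadingCoeff = (l : ℂ) := by
    rw [Polynomial.leadingCoeff, hQdeg, hQ, Polynomial.coeff_map]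
    rfl
  have hcard : Multiset.card Q.roots = Q.natDegree := IsAlgClosed.card_roots_eq_natDegree
  have hprod : Q = C (l : ℂ) * (Q.roots.map fun a => (X - C a)).prod := by
    rw [← hQlead]
    exact (IsAlgClosed.splits Q).eq_prod_roots
  have hlc : (l : ℂ) ≠ 0 := by exact_mod_cast hl.ne'
  -- the second coefficient
  have hsec : ((P.coeff (g - 1) : ℝ) : ℂ) = (l : ℂ) * (Q.roots.map fun z => -z).sum := by
    have h1 := Polynomial.coeff_eq_esymm_roots_of_card hcard (show g - 1 ≤ Q.natDegree by omega)
    rw [hQdeg, show g - (g - 1) = 1 by omega, hQlead] at h1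
    have h2 : Q.coeff (g - 1) = ((P.coeff (g - 1) : ℝ) : ℂ) := by
      rw [hQ, Polynomial.coeff_map]
      rfl
    rw [← h2, h1]
    have h3 : Q.roots.esymm 1 = Q.roots.sum := by
      simp [Multiset.esymm, Multiset.powersetCard_one]
    rw [h3, Multiset.sum_map_neg']
    ring
  -- the value
  have hval : ((P.eval r : ℝ) : ℂ) = (l : ℂ) * (r : ℂ) ^ g *
      (Q.roots.map fun z => 1 + -z / (r : ℂ)).prod := by
    have e1 : ((P.eval r : ℝ) : ℂ) = Q.eval (r : ℂ) := by
      rw [hQ]
      exact (Polynomial.eval_map_apply Complex.ofRealHom r).symm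
    have e2 := congrArg (fun R : ℂ[X] => R.eval (r : ℂ)) hprod
    simp only [Polynomial.eval_mul, Polynomial.eval_C, Polynomial.eval_multiset_prod,
      Multiset.map_map, Function.comp_def, Polynomial.eval_sub, Polynomial.eval_X] at e2
    rw [e1, e2, mul_assoc]
    congr 1
    have hrc : (r : ℂ) ≠ 0 := by exact_mod_cast hr.ne'
    rw [← hQdeg, ← hcard]
    have h3 : ∀ s : Multiset ℂ, (s.map fun z => (r : ℂ) - z).prod =
        (r : ℂ) ^ Multiset.card s * (s.map fun z => 1 + -z / (r : ℂ)).prod := by
      intro s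
      induction s using Multiset.induction_on with
      | empty => simp
      | cons a s ih =>
        rw [Multiset.map_cons, Multiset.prod_cons, Multiset.map_cons, Multiset.prod_cons,
          Multiset.card_cons, ih]
        field_simp
        ring
    exact h3 _
  -- the estimate
  have hest : ∀ s : Multiset ℂ, (∀ z ∈ s, ‖z‖ ≤ ρ) →
      ‖(s.map fun z => 1 + -z / (r : ℂ)).prod‖ ≤
        Real.exp ((s.map fun z => -z).sum.re / r + Multiset.card s * (ρ ^ 2 / (2 * r ^ 2))) := by
    intro s
    induction s using Multiset.induction_on with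
    | empty => simp
    | cons a s ih =>
      intro hs
      rw [Multiset.map_cons, Multiset.prod_cons, Multiset.map_cons, Multiset.sum_cons,
        Multiset.card_cons, norm_mul]
      have h1 := ih fun z hz => hs z (Multiset.mem_cons_of_mem hz)
      have h2 := norm_one_add_le (-a / (r : ℂ))
      have h3 : (-a / (r : ℂ)).re = (-a).re / r := by
        rw [Complex.div_ofReal_re]
      have h4 : ‖-a / (r : ℂ)‖ ^ 2 / 2 ≤ ρ ^ 2 / (2 * r ^ 2) := by
        rw [norm_div, norm_neg, Complex.norm_real, Real.norm_eq_abs, abs_of_pos hr, div_pow,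
          div_div, mul_comm (2 : ℝ)]
        apply div_le_div_of_nonneg_right _ (by positivity)
        exact pow_le_pow_left₀ (norm_nonneg _) (hs a (Multiset.mem_cons_self _ _)) 2
      calc ‖1 + -a / (r : ℂ)‖ * ‖(s.map fun z => 1 + -z / (r : ℂ)).prod‖
          ≤ Real.exp ((-a).re / r + ρ ^ 2 / (2 * r ^ 2)) *
            Real.exp ((s.map fun z => -z).sum.re / r +
              Multiset.card s * (ρ ^ 2 / (2 * r ^ 2))) := by
            apply mul_le_mul _ h1 (norm_nonneg _) (Real.exp_pos _).le
            refine h2.trans (Real.exp_le_exp.2 ?_)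
            rw [h3]
            linarith
        _ = Real.exp ((-a + (s.map fun z => -z).sum).re / r +
              ((Multiset.card s + 1 : ℕ) : ℝ) * (ρ ^ 2 / (2 * r ^ 2))) := by
            rw [← Real.exp_add, Complex.add_re]
            congr 1
            push_cast
            ring
  have h1 := hest Q.roots hroots
  have hrg : 0 < l * r ^ g := by positivity
  have h2 : P.eval r / (l * r ^ g) = ‖(Q.roots.map fun z => 1 + -z / (r : ℂ)).prod‖ := by
    have h3 := congrArg norm hval
    rw [norm_mul, norm_mul, norm_pow, Complex.norm_real, Complex.norm_real, Complex.norm_real,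
      Real.norm_eq_abs, Real.norm_eq_abs, Real.norm_eq_abs, abs_of_pos hPr, abs_of_pos hl,
      abs_of_pos hr] at h3
    rw [h3, mul_div_cancel_left₀ _ hrg.ne']
  have hsum : (Q.roots.map fun z => -z).sum.re = P.coeff (g - 1) / l := by
    have h3 := congrArg Complex.re hsec
    rw [Complex.ofReal_re, Complex.re_ofReal_mul] at h3
    rw [h3]
    field_simp
  rw [← h2, hsum, hcard, hQdeg] at h1
  have h4 : Real.log (P.eval r / (l * r ^ g)) ≤
      P.coeff (g - 1) / l / r + g * (ρ ^ 2 / (2 * r ^ 2)) := by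
    rw [Real.log_le_iff_le_exp (by positivity)]
    exact h1
  have h5 := mul_le_mul_of_nonneg_left h4 hr.le
  have h6 : r * (P.coeff (g - 1) / l / r + g * (ρ ^ 2 / (2 * r ^ 2))) =
      P.coeff (g - 1) / l + g * ρ ^ 2 / (2 * r) := by
    field_simp
  rw [h6] at h5
  linarith

end Pool.Agent.Helper49.EV
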